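import Mathlib

/-!
# [H32 TN Dio] THEOREM Z (MP_e49dc9_ag): integral points near a ray

`dio`: simultaneous approximation.
`cone_dio`: `p : Fin r → ℝ` with coordinates linearly independent over `ℚ`: a convex cone which contains all integral points `n` with
`|n i - x p i| ≤ δ`, `x ≥ x₀`, contains `p`.

PROOF: these `n` (for `δ / 2`) span `ℚ ^ r`: a rational functional zero on all of them is zero at `p`.  Let `n_1, .., n_m` be a basis from
them, and `n'' = x'' p + w''` with `w''` very small and `x''` large.  Then `n'' - n_b` is one of the given points and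
`m x'' p = ∑ (n'' - n_b) + ∑ n_b - m w''` where `m w'' = ∑ c_b n_b` with `|c_b| ≤ 1`.
-/

set_option autoImplicit false

namespace Pool.Agent.H32.TN

open Filter Topology

theorem dio {r : ℕ} (p : Fin r → ℝ) {ε : ℝ} (hε : 0 < ε) (M : ℝ) :
    ∃ (x : ℝ) (n : Fin r → ℤ), M ≤ x ∧ ∀ i, |(n i : ℝ) - x * p i| ≤ ε := by
  obtain ⟨M', hM'⟩ := exists_nat_ge (max M 0)
  have hM1 : M ≤ M' := (le_max_left _ _).trans hM'
  obtain ⟨u, hu⟩ : ∃ u : ℕ → Fin r → ℝ, u = fun (j : ℕ) i => Int.fract ((j : ℝ) * M' * p i) := ⟨_, rfl⟩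
  have hb : ∀ j, u j ∈ Metric.closedBall (0 : Fin r → ℝ) 1 := by
    intro j
    rw [mem_closedBall_zero_iff, pi_norm_le_iff_of_nonneg zero_le_one]
    intro i
    rw [hu, Real.norm_eq_abs, abs_of_nonneg (Int.fract_nonneg _)]
    exact (Int.fract_lt_one _).le
  obtain ⟨a, -, φ, hφ, ha⟩ := tendsto_subseq_of_bounded Metric.isBounded_closedBall hb
  obtain ⟨N, hN⟩ := Metric.cauchySeq_iff.1 ha.cauchySeq ε hε
  have h1 := hN N le_rfl (N + 1) (Nat.le_succ N)
  have h2 : φ N < φ (N + 1) := hφ (Nat.lt_succ_self N)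
  refine ⟨((φ (N + 1) : ℝ) - φ N) * M', fun i => ⌊(φ (N + 1) : ℝ) * M' * p i⌋ - ⌊(φ N : ℝ) * M' * p i⌋, ?_,
    fun i => ?_⟩
  · have h3 : (φ N : ℝ) + 1 ≤ φ (N + 1) := by exact_mod_cast h2
    have h4 : (0 : ℝ) ≤ M' := Nat.cast_nonneg _
    nlinarith
  · have h3 : ‖(u (φ N) - u (φ (N + 1))) i‖ ≤ ε := by
      refine (norm_le_pi_norm (u (φ N) - u (φ (N + 1))) i).trans ?_
      rw [← dist_eq_norm]
      exact h1.le
    rw [Pi.sub_apply, hu, Real.norm_eq_abs] at h3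
    have h4 := Int.self_sub_floor ((φ N : ℝ) * M' * p i)
    have h5 := Int.self_sub_floor ((φ (N + 1) : ℝ) * M' * p i)
    have e : (((⌊(φ (N + 1) : ℝ) * M' * p i⌋ - ⌊(φ N : ℝ) * M' * p i⌋ : ℤ) : ℝ) -
        ((φ (N + 1) : ℝ) - φ N) * M' * p i) =
        Int.fract ((φ N : ℝ) * M' * p i) - Int.fract ((φ (N + 1) : ℝ) * M' * p i) := by
      rw [← h4, ← h5]
      push_cast
      ring
    rw [e]
    exact h3

/-- integral points near the ray of `p` -/
def Nr {r : ℕ} (p : Fin r → ℝ) (δ x₀ : ℝ) (n : Fin r → ℤ) : Prop :=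
  ∃ x : ℝ, x₀ ≤ x ∧ ∀ i, |(n i : ℝ) - x * p i| ≤ δ

variable {r : ℕ} {p : Fin r → ℝ}

theorem clear_den (q : Fin r → ℚ) : ∃ (D : ℕ) (z : Fin r → ℤ), 0 < D ∧ ∀ i, (z i : ℚ) = D * q i := by
  classical
  refine ⟨∏ i, (q i).den, fun i => (∏ j ∈ Finset.univ.erase i, (q j).den : ℕ) * (q i).num,
    Finset.prod_pos fun i _ => (q i).pos, fun i => ?_⟩
  rw [← Finset.mul_prod_erase Finset.univ (fun i => (q i).den) (Finset.mem_univ i)]
  push_cast
  have h1 := Rat.mul_den_eq_num (q i)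
  rw [← h1]
  ring

theorem span_top (hlin : ∀ z : Fin r → ℤ, ∑ i, (z i : ℝ) * p i = 0 → z = 0) {δ : ℝ} (hδ : 0 < δ) (x₀ : ℝ) :
    Submodule.span ℚ {v : Fin r → ℚ | ∃ n : Fin r → ℤ, Nr p δ x₀ n ∧ v = fun i => (n i : ℚ)} = ⊤ := by
  classical
  by_contra hne
  obtain ⟨f, hf0, hf⟩ := Submodule.exists_le_ker_of_lt_top _ (lt_top_iff_ne_top.2 hne)
  obtain ⟨q, hq⟩ : ∃ q : Fin r → ℚ, q = fun i => f (Pi.single i 1) := ⟨_, rfl⟩
  have hfv : ∀ v : Fin r → ℚ, f v = ∑ i, v i * q i := by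
    intro v
    have e : v = ∑ i, v i • (Pi.single i (1 : ℚ) : Fin r → ℚ) := by
      funext j
      rw [Finset.sum_apply]
      simp [Pi.single_apply]
    conv_lhs => rw [e]
    rw [map_sum]
    exact Finset.sum_congr rfl fun i _ => by rw [map_smul, smul_eq_mul, hq]
  have h0 : ∀ n : Fin r → ℤ, Nr p δ x₀ n → ∑ i, (n i : ℝ) * q i = 0 := by
    intro n hn
    have h1 : f (fun i => (n i : ℚ)) = 0 := hf (Submodule.subset_span ⟨n, hn, rfl⟩)
    rw [hfv] at h1
    have h2 : ((∑ i, (n i : ℚ) * q i : ℚ) : ℝ) = 0 := by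
      rw [h1, Rat.cast_zero]
    push_cast at h2
    exact h2
  obtain ⟨s, hs⟩ : ∃ s : ℝ, s = ∑ i, p i * q i := ⟨_, rfl⟩
  have hs0 : s = 0 := by
    by_contra h1
    obtain ⟨K, hK⟩ : ∃ K : ℝ, K = ∑ i, |(q i : ℝ)| := ⟨_, rfl⟩
    have hs1 : 0 < |s| := abs_pos.2 h1
    have hK0 : 0 ≤ K := by rw [hK]; exact Finset.sum_nonneg fun i _ => abs_nonneg _
    obtain ⟨x, n, hx, hn⟩ := dio p hδ (max x₀ (δ * K / |s| + 1))
    have h2 := h0 n ⟨x, (le_max_left _ _).trans hx, hn⟩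
    have hx2 : δ * K / |s| + 1 ≤ x := (le_max_right _ _).trans hx
    have h3 : x * s = - ∑ i, ((n i : ℝ) - x * p i) * q i := by
      have e : ∑ i, ((n i : ℝ) - x * p i) * q i = ∑ i, (n i : ℝ) * q i - x * s := by
        rw [hs, Finset.mul_sum, ← Finset.sum_sub_distrib]
        exact Finset.sum_congr rfl fun i _ => by ring
      rw [e, h2]
      ring
    have h4 : |x * s| ≤ δ * K := by
      rw [h3, abs_neg, hK, Finset.mul_sum]
      refine (Finset.abs_sum_le_sum_abs _ _).trans (Finset.sum_le_sum fun i _ => ?_)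
      rw [abs_mul]
      exact mul_le_mul_of_nonneg_right (hn i) (abs_nonneg _)
    have h5 : 0 ≤ δ * K / |s| := by positivity
    rw [abs_mul, abs_of_pos (show 0 < x by linarith)] at h4
    have h6 : (δ * K / |s| + 1) * |s| ≤ x * |s| := mul_le_mul_of_nonneg_right hx2 hs1.le
    rw [add_mul, div_mul_cancel₀ _ hs1.ne'] at h6
    linarith
  obtain ⟨D, z, hD, hz⟩ := clear_den q
  have hz' : ∀ i, (z i : ℝ) = D * q i := fun i => by exact_mod_cast congrArg (fun t : ℚ => (t : ℝ)) (hz i)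
  have h1 : z = 0 := by
    refine hlin z ?_
    have e : ∑ i, (z i : ℝ) * p i = D * s := by
      rw [hs, Finset.mul_sum]
      exact Finset.sum_congr rfl fun i _ => by rw [hz']; ring
    rw [e, hs0, mul_zero]
  refine hf0 (LinearMap.ext fun v => ?_)
  rw [hfv, LinearMap.zero_apply]
  refine Finset.sum_eq_zero fun i _ => ?_
  have h2 := hz i
  rw [h1, Pi.zero_apply, Int.cast_zero] at h2
  have hD' : (D : ℚ) ≠ 0 := by exact_mod_cast hD.ne'
  rcases mul_eq_zero.1 h2.symm with h3 | h3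
  · exact absurd h3 hD'
  · rw [h3, mul_zero]

/-- a finite family -/
theorem exists_fam (hlin : ∀ z : Fin r → ℤ, ∑ i, (z i : ℝ) * p i = 0 → z = 0) {δ : ℝ} (hδ : 0 < δ) (x₀ : ℝ) :
    ∃ (m : ℕ) (n : Fin m → Fin r → ℤ) (q : Fin r → Fin m → ℝ), (∀ b, Nr p δ x₀ (n b)) ∧
      ∀ j i, ∑ b, q j b * n b i = if i = j then 1 else 0 := by
  classical
  have h1 := span_top hlin hδ x₀
  obtain ⟨b, hb1, hb2, hb3⟩ := exists_linearIndependent ℚ
    {v : Fin r → ℚ | ∃ n : Fin r → ℤ, Nr p δ x₀ n ∧ v = fun i => (n i : ℚ)}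
  rw [h1] at hb2
  have hfin : Finite b := hb3.setFinite
  have := Fintype.ofFinite b
  obtain ⟨e⟩ : Nonempty (Fin (Fintype.card b) ≃ b) := ⟨(Fintype.equivFin b).symm⟩
  choose n hn1 hn2 using fun v : b => hb1 v.2
  have hsp : ∀ v : Fin r → ℚ, ∃ c : b → ℚ, ∑ i, c i • (i : Fin r → ℚ) = v := by
    intro v
    have h2 : v ∈ Submodule.span ℚ (Set.range (fun i : b => (i : Fin r → ℚ))) := by
      rw [Subtype.range_coe, hb2]
      exact Submodule.mem_top
    exact (Submodule.mem_span_range_iff_exists_fun ℚ).1 h2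
  choose c hc using hsp
  refine ⟨Fintype.card b, fun t => n (e t), fun j t => (c (Pi.single j 1) (e t) : ℝ), fun t => hn1 _, fun j i => ?_⟩
  have h2 := congrFun (hc (Pi.single j 1)) i
  rw [Finset.sum_apply] at h2
  have h3 : ∑ t, c (Pi.single j 1) (e t) * (n (e t) i : ℚ) = if i = j then 1 else 0 := by
    have h4 : ∑ t, c (Pi.single j 1) (e t) * (n (e t) i : ℚ) = ∑ s : b, c (Pi.single j 1) s * (n s i : ℚ) :=
      Equiv.sum_comp e fun s : b => c (Pi.single j 1) s * (n s i : ℚ)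
    rw [h4]
    have h5 : ∀ s : b, c (Pi.single j 1) s * (n s i : ℚ) = (c (Pi.single j 1) s • (s : Fin r → ℚ)) i := by
      intro s
      rw [Pi.smul_apply, smul_eq_mul]
      have h6 := congrFun (hn2 s) i
      rw [h6]
    rw [Finset.sum_congr rfl fun s _ => h5 s, h2, Pi.single_apply]
  have h7 : ((∑ t, c (Pi.single j 1) (e t) * (n (e t) i : ℚ) : ℚ) : ℝ) = if i = j then 1 else 0 := by
    rw [h3]
    split_ifs <;> simp
  rw [← h7]
  push_cast
  rfl

theorem cone_dio (hlin : ∀ z : Fin r → ℤ, ∑ i, (z i : ℝ) * p i = 0 → z = 0) {δ : ℝ} (hδ : 0 < δ) (x₀ : ℝ)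
    {C : Set (Fin r → ℝ)} (h0 : (0 : Fin r → ℝ) ∈ C) (hadd : ∀ u ∈ C, ∀ v ∈ C, u + v ∈ C)
    (hsmul : ∀ c : ℝ, 0 ≤ c → ∀ u ∈ C, c • u ∈ C)
    (hS : ∀ (n : Fin r → ℤ) (x : ℝ), x₀ ≤ x → (∀ i, |(n i : ℝ) - x * p i| ≤ δ) → (fun i => (n i : ℝ)) ∈ C) :
    p ∈ C := by
  classical
  obtain ⟨m, n, q, hn, hq⟩ := exists_fam hlin (show 0 < δ / 2 by positivity) x₀
  choose x hx hnx using hn
  have hco : ∀ w : Fin r → ℝ, w = ∑ b, (∑ j, w j * q j b) • (fun i => (n b i : ℝ)) := by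
    intro w
    funext i
    rw [Finset.sum_apply]
    simp only [Pi.smul_apply, smul_eq_mul, Finset.sum_mul]
    rw [Finset.sum_comm]
    have h1 : ∀ j, ∑ b, w j * q j b * (n b i : ℝ) = if i = j then w j else 0 := by
      intro j
      have h2 := hq j i
      have h3 : ∑ b, w j * q j b * (n b i : ℝ) = w j * ∑ b, q j b * (n b i : ℝ) := by
        rw [Finset.mul_sum]
        exact Finset.sum_congr rfl fun b _ => by ring
      rw [h3, h2]
      split_ifs <;> ring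
    rw [Finset.sum_congr rfl fun j _ => h1 j]
    simp
  have hsum : ∀ (s : Finset (Fin m)) (f : Fin m → Fin r → ℝ), (∀ b, f b ∈ C) → ∑ b ∈ s, f b ∈ C := by
    intro s f hf
    induction s using Finset.induction_on with
    | empty => rw [Finset.sum_empty]; exact h0
    | insert b s hb ih => rw [Finset.sum_insert hb]; exact hadd _ (hf b) _ ih
  rcases Nat.eq_zero_or_pos m with hm | hm
  · subst hm
    rw [hco p]
    simpa using h0
  have hm0 : (0 : ℝ) < m := by exact_mod_cast hm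
  obtain ⟨K, hK⟩ : ∃ K : ℝ, K = 1 + ∑ j, ∑ b, |q j b| := ⟨_, rfl⟩
  have hK0 : 0 < K := by
    rw [hK]
    have : 0 ≤ ∑ j, ∑ b, |q j b| := Finset.sum_nonneg fun j _ => Finset.sum_nonneg fun b _ => abs_nonneg _
    linarith
  obtain ⟨ε, hε⟩ : ∃ ε, ε = min (δ / 2) (1 / (m * K)) := ⟨_, rfl⟩
  have hε0 : 0 < ε := by rw [hε]; exact lt_min (by positivity) (by positivity)
  have hε1 : ε ≤ δ / 2 := by rw [hε]; exact min_le_left _ _
  have hε2 : m * (ε * K) ≤ 1 := by
    have h1 : ε ≤ 1 / (m * K) := by rw [hε]; exact min_le_right _ _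
    rw [le_div_iff₀ (by positivity)] at h1
    linarith
  obtain ⟨x', n', hx', hn'⟩ := dio p hε0 (|x₀| + ∑ b, |x b| + 1)
  have hxb : ∀ b, |x b| ≤ ∑ b, |x b| := fun b =>
    Finset.single_le_sum (f := fun b => |x b|) (fun _ _ => abs_nonneg _) (Finset.mem_univ b)
  have hx1 : ∀ b, x₀ ≤ x' - x b := fun b => by
    have h1 := hxb b
    have h2 := le_abs_self (x b)
    have h3 := le_abs_self x₀
    linarith
  have hx0 : 0 < x' := by
    have h1 : 0 ≤ ∑ b, |x b| := Finset.sum_nonneg fun b _ => abs_nonneg _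
    have h2 := abs_nonneg x₀
    linarith
  obtain ⟨w, hw⟩ : ∃ w : Fin r → ℝ, w = fun i => (n' i : ℝ) - x' * p i := ⟨_, rfl⟩
  obtain ⟨c, hc⟩ : ∃ c : Fin m → ℝ, c = fun b => m * ∑ j, w j * q j b := ⟨_, rfl⟩
  have hc1 : ∀ b, c b ≤ 1 := by
    intro b
    have h1 : ∑ j, w j * q j b ≤ ε * K := by
      have h2 : ∑ j, w j * q j b ≤ ∑ j, ε * |q j b| := Finset.sum_le_sum fun j _ => by
        have h3 : |w j| ≤ ε := by rw [hw]; exact hn' j
        have h4 : w j * q j b ≤ |w j * q j b| := le_abs_self _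
        rw [abs_mul] at h4
        exact h4.trans (mul_le_mul_of_nonneg_right h3 (abs_nonneg _))
      have h3 : ∑ j, |q j b| ≤ ∑ j, ∑ b, |q j b| := Finset.sum_le_sum fun j _ =>
        Finset.single_le_sum (f := fun b => |q j b|) (fun _ _ => abs_nonneg _) (Finset.mem_univ b)
      rw [← Finset.mul_sum] at h2
      refine h2.trans (mul_le_mul_of_nonneg_left ?_ hε0.le)
      rw [hK]
      linarith
    rw [hc]
    exact (mul_le_mul_of_nonneg_left h1 hm0.le).trans hε2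
  have hA : ∀ b, (fun i => ((n' i : ℝ) - n b i)) ∈ C := fun b => by
    have h1 := hS (fun i => n' i - n b i) (x' - x b) (hx1 b) fun i => by
      have h2 := abs_le.1 (hn' i)
      have h3 := abs_le.1 (hnx b i)
      push_cast
      rw [abs_le]
      constructor <;> linarith [h2.1, h2.2, h3.1, h3.2]
    have e : (fun i => (((n' i - n b i : ℤ)) : ℝ)) = fun i => ((n' i : ℝ) - n b i) := by
      funext i
      push_cast
      rfl
    rwa [e] at h1
  have hB : ∀ b, (1 - c b) • (fun i => (n b i : ℝ)) ∈ C := fun b =>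
    hsmul _ (by linarith [hc1 b]) _ (hS (n b) (x b) (hx b) fun i => (hnx b i).trans (by linarith))
  have hfin := hsmul ((m * x')⁻¹) (by positivity) _ (hadd _ (hsum Finset.univ _ hA) _ (hsum Finset.univ _ hB))
  have e : p = (m * x')⁻¹ • (∑ b, (fun i => ((n' i : ℝ) - n b i)) + ∑ b, (1 - c b) • (fun i => (n b i : ℝ))) := by
    have h1 := hco w
    funext i
    have h2 := congrFun h1 i
    rw [Finset.sum_apply] at h2
    simp only [Pi.smul_apply, smul_eq_mul] at h2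
    have h3 : ∑ b, c b * (n b i : ℝ) = m * w i := by
      rw [h2, Finset.mul_sum]
      exact Finset.sum_congr rfl fun b _ => by rw [hc]; ring
    rw [Pi.smul_apply, Pi.add_apply, Finset.sum_apply, Finset.sum_apply, smul_eq_mul]
    simp only [Pi.smul_apply, smul_eq_mul]
    rw [← Finset.sum_add_distrib]
    have h4 : ∑ b, ((n' i : ℝ) - n b i + (1 - c b) * n b i) = m * n' i - ∑ b, c b * (n b i : ℝ) := by
      have h5 : ∀ b, ((n' i : ℝ) - n b i + (1 - c b) * n b i) = n' i - c b * n b i := fun b => by ring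
      rw [Finset.sum_congr rfl fun b _ => h5 b, Finset.sum_sub_distrib, Finset.sum_const, Finset.card_univ,
        Fintype.card_fin, nsmul_eq_mul]
    rw [h4, h3, hw]
    field_simp
    ring
  rw [e]
  exact hfin

end Pool.Agent.H32.TN
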