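import Pool.Agent.H32.TN.For

/-!
# [H32 TN Int] THEOREM Z (MP_e49dc9_ag): nef classes `p` with `p ^ 3 = 0` and `p ^ 2` a multiple of an integral class

`eff_of_int`: such a class is effective if `l(p) > 0` and `p ^ 2 ≠ 0`.
`famb_of_int`: and there is a family (b).
`famb_of_c`: so (c) with `p ^ 2 ≠ 0` implies (b).
`z_irr`: every nef class `p` with `l(p) > 0` and `p ^ 2 ≠ 0` is effective, or (b) holds and `p ^ 2` is not a multiple of an integral class.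

PROOF.  Let `T(p,p,.) = τ φ` with `φ` integral.  `φ(p) = 0`, so `φ = 0` and `T(p,p,.) = 0` on the smallest rational space `V` which contains `p`.
The integral classes `D` in `V` near `x p` have at least `x l(p) / 4` sections for `x` large (`lb_p`), so `p` is in the cone generated by
effective classes (`cone_dio`), and moving prime divisors in `D` give (b).
-/

set_option autoImplicit false

namespace Pool.Agent.H32.TN

open Pool.Agent.H54.RV Pool.Agent.H83.TU Pool.Agent.H83.TK Pool.Agent.H20.TD Pool.Agent.H20.TP Pool.Agent.H39.TQ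
  Pool.Agent.H36.TZ Pool.Agent.H36.TQ Pool.Agent.H89.ZN Pool.Agent.H57.KM Pool.Agent.H83.DC
open Pool.Agent.H24.VP (RR chS Tri)
open Pool.Agent.H39.TZ (FamB FamC FamC2 HilbR cube_nn exists_E nfr_of T_pT T_pz T_p3 l_dl p_eq z_co)

variable {k K : Type} [Field k] [Field K] [Algebra k K] {X : Mod k K} {r : ℕ}
  {ν : Cart X →* Multiplicative (Fin r → ℤ)} {T : Cart X → Cart X → Cart X → ℝ} {l : Cart X → ℝ} {c : ℝ} {TR : Tri3 r}
  {p : Fin r → ℝ}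

variable (ν) in
/-- `p . p` is a multiple of an integral class -/
def SqInt (TR : Tri3 r) (p : Fin r → ℝ) : Prop :=
  ∃ (φ : (Fin r → ℝ) →ₗ[ℝ] ℝ) (τ : ℝ), (∀ D, ∃ z : ℤ, φ (Pool.Agent.H20.TP.cR ν D) = z) ∧ ∀ v, TR p p v = τ * φ v

/-- `p ^ 2 ≠ 0` is positive on the ample classes -/
theorem sq_amp [IsAlgClosed k] [CharZero k] [T0Space X.P] (h : Hyp X) (hν : NumR ν) (hr : RR T l c)
    (hT : ∀ U V W, TR (Pool.Agent.H20.TP.cR ν U) (Pool.Agent.H20.TP.cR ν V) (Pool.Agent.H20.TP.cR ν W) = T U V W)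
    (hp : p ∈ closure (AmpR ν)) (hpp : TR p p ≠ 0) {A : Cart X} (hA : Ample A) :
    0 < TR p p (Pool.Agent.H20.TP.cR ν A) := by
  obtain ⟨E, hE⟩ := exists_E hν
  have hn := nfr_of h.var hν hA hE hp
  have hR := rn_of h hA hn
  have h1 : ∀ U, Ample U → 0 ≤ TR p p (Pool.Agent.H20.TP.cR ν U) := fun U hU => by
    rw [T_pz hT hE]
    exact pz_amp h hr hR hU
  rcases (h1 A hA).lt_or_eq with h2 | h2
  · exact h2
  exfalso
  refine hpp (ext_uniq hν fun D => ?_)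
  have key : ∀ D : Cart X, 0 ≤ TR p p (Pool.Agent.H20.TP.cR ν D) := by
    intro D
    obtain ⟨m, hm, hAD⟩ := ample_add h.var A D hA
    have h3 := h1 _ hAD
    have e : Pool.Agent.H20.TP.cR ν (A ^ m * D) = (m : ℝ) • Pool.Agent.H20.TP.cR ν A + Pool.Agent.H20.TP.cR ν D := by
      show rv (ci ν (A ^ m * D)) = (m : ℝ) • rv (ci ν A) + rv (ci ν D)
      rw [ci_mul, ci_pow, rv_add, rv_smul, Int.cast_natCast]
    rw [e, map_add, map_smul, ← h2, smul_zero, zero_add] at h3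
    exact h3
  have h3 := key D
  have h4 := key D⁻¹
  have e : Pool.Agent.H20.TP.cR ν D⁻¹ = - Pool.Agent.H20.TP.cR ν D := by
    show rv (ci ν D⁻¹) = - rv (ci ν D)
    rw [ci_inv, rv_neg]
  rw [e, map_neg] at h4
  show TR p p (rv (ci ν D)) = (0 : (Fin r → ℝ) →ₗ[ℝ] ℝ) (rv (ci ν D))
  rw [LinearMap.zero_apply]
  have h5 : 0 ≤ TR p p (rv (ci ν D)) := h3
  have h6 : 0 ≤ - TR p p (rv (ci ν D)) := h4
  linarith

/-- reduction to coefficients which are linearly independent over `ℚ` -/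
theorem red_pnt [IsAlgClosed k] [CharZero k] [T0Space X.P] (h : Hyp X) (hν : NumR ν)
    {l₀ : Cart X → ℝ} (hr : RR T l₀ c)
    (hT : ∀ U V W, TR (Pool.Agent.H20.TP.cR ν U) (Pool.Agent.H20.TP.cR ν V) (Pool.Agent.H20.TP.cR ν W) = T U V W)
    {l : (Fin r → ℝ) →ₗ[ℝ] ℝ} (hl : ∀ D, l (Pool.Agent.H20.TP.cR ν D) = l₀ D)
    (hp : p ∈ closure (AmpR ν)) (hlp : 0 < l p) (h3 : TR p p p = 0) (hpp : TR p p ≠ 0) (hI : SqInt ν TR p) :
    ∃ (A : Cart X) (m : ℕ) (q : Fin m → ℝ) (G : Fin m → Cart X), Pnt T l₀ c A G q ∧ 0 < pz T G q A ∧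
      (∀ i, pz T G q (G i) = 0) ∧ ∑ i, q i • Pool.Agent.H20.TP.cR ν (G i) = p ∧
      (∀ U V, TR p (Pool.Agent.H20.TP.cR ν U) (Pool.Agent.H20.TP.cR ν V) = pT T G q U V) ∧
      ∀ U, TR p p (Pool.Agent.H20.TP.cR ν U) = pz T G q U := by
  obtain ⟨φ, τ, hφ, hsq⟩ := hI
  choose z hz using hφ
  obtain ⟨E, hE⟩ := exists_E hν
  obtain ⟨A, hA⟩ := h.amp
  have hn := nfr_of h.var hν hA hE hp
  obtain ⟨m, q, c', hlin, hy⟩ := red_lin p
  obtain ⟨G, hG⟩ : ∃ G : Fin m → Cart X, G = fun i => ∏ j, E j ^ c' j i := ⟨_, rfl⟩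
  have hd : ∀ δ : Cart X → ℝ, (∀ U V, δ (U * V) = δ U + δ V) → dl δ G q = dl δ E p := by
    intro δ hδ
    rw [hG]
    exact red_dl E p q c' hy δ hδ
  have hnG : Nfr A G q := by
    rw [hG]
    exact nfr_red h hA E p q c' hy hn
  have hP : Pnt T l₀ c A G q := by
    refine ⟨hr, rn_of h hA hnG, hlin, ?_, ?_⟩
    · rw [trf_p3 hr.tri hd, ← T_p3 hT hE]
      exact h3
    · rw [hd l₀ hr.ladd, ← l_dl hl hE]
      exact hlp
  have hpT : ∀ U V, TR p (Pool.Agent.H20.TP.cR ν U) (Pool.Agent.H20.TP.cR ν V) = pT T G q U V := fun U V => by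
    rw [trf_pT hr.tri hd, T_pT hT hE]
  have hpz : ∀ U, TR p p (Pool.Agent.H20.TP.cR ν U) = pz T G q U := fun U => by
    rw [trf_pz hr.tri hd, T_pz hT hE]
  have hτ : τ ≠ 0 := by
    intro h4
    refine hpp (LinearMap.ext fun v => ?_)
    rw [hsq, h4, zero_mul, LinearMap.zero_apply]
  have hφp : φ p = 0 := by
    rw [hsq] at h3
    exact (mul_eq_zero.1 h3).resolve_left hτ
  have hadd : ∀ U V : Cart X, φ (Pool.Agent.H20.TP.cR ν (U * V)) =
      φ (Pool.Agent.H20.TP.cR ν U) + φ (Pool.Agent.H20.TP.cR ν V) := fun U V => by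
    rw [← map_add]
    congr 1
    show rv (ci ν (U * V)) = rv (ci ν U) + rv (ci ν V)
    rw [ci_mul, rv_add]
  have hφG : ∀ i, φ (Pool.Agent.H20.TP.cR ν (G i)) = 0 := by
    have h1 : ∑ i, (z (G i) : ℝ) * q i = 0 := by
      have h2 := hd (fun D => φ (Pool.Agent.H20.TP.cR ν D)) hadd
      have h4 : dl (fun D => φ (Pool.Agent.H20.TP.cR ν D)) E p = 0 := by
        rw [← l_dl (fun D => rfl) hE]
        exact hφp
      rw [h4] at h2
      rw [← h2]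
      unfold dl
      exact Finset.sum_congr rfl fun i _ => by rw [← hz, mul_comm]
    have h2 := hlin (fun i => z (G i)) h1
    intro i
    rw [hz]
    have h4 := congrFun h2 i
    simp only [Pi.zero_apply] at h4
    rw [h4, Int.cast_zero]
  refine ⟨A, m, q, G, hP, ?_, fun i => ?_, ?_, hpT, hpz⟩
  · rw [← hpz]
    exact sq_amp h hν hr hT hp hpp hA
  · rw [← hpz, hsq, hφG, mul_zero]
  · funext j
    have h6 := hd (fun D => Pool.Agent.H20.TP.cR ν D j) fun U V => by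
      show (((ci ν (U * V) j : ℤ)) : ℝ) = ((ci ν U j : ℤ) : ℝ) + ((ci ν V j : ℤ) : ℝ)
      rw [ci_mul, Pi.add_apply, Int.cast_add]
    have h7 : dl (fun D => Pool.Agent.H20.TP.cR ν D j) E p = p j := by
      conv_rhs => rw [p_eq hE p]
      rw [Finset.sum_apply]
      rfl
    rw [h7] at h6
    rw [← h6, Finset.sum_apply]
    rfl

theorem eff_of_int [IsAlgClosed k] [CharZero k] [T0Space X.P] (h : Hyp X) (hν : NumR ν)
    {l₀ : Cart X → ℝ} (hr : RR T l₀ c)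
    (hT : ∀ U V W, TR (Pool.Agent.H20.TP.cR ν U) (Pool.Agent.H20.TP.cR ν V) (Pool.Agent.H20.TP.cR ν W) = T U V W)
    {l : (Fin r → ℝ) →ₗ[ℝ] ℝ} (hl : ∀ D, l (Pool.Agent.H20.TP.cR ν D) = l₀ D)
    (hp : p ∈ closure (AmpR ν)) (hlp : 0 < l p) (h3 : TR p p p = 0) (hpp : TR p p ≠ 0) (hI : SqInt ν TR p) :
    Pool.Agent.H39.TZ.EffR ν p := by
  obtain ⟨A, m, q, G, hP, ha, hz, e, -, -⟩ := red_pnt h hν hr hT hl hp hlp h3 hpp hI
  rw [effr_iff, ← e]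
  exact eff_pnt h hν hP ha hz

/-- the family (b) -/
theorem pen_pnt [IsAlgClosed k] [CharZero k] [T0Space X.P] (h : Hyp X) (hν : NumR ν) {m : ℕ} {G : Fin m → Cart X}
    {q : Fin m → ℝ} {A : Cart X} (hq : Pnt T l c A G q) (ha : 0 < pz T G q A) (hz : ∀ i, pz T G q (G i) = 0) :
    Pen T G q := by
  have hlp : 0 < ∑ i, q i * l (G i) := hq.lp
  have hr := hq.hr
  have ht := hr.tri
  have hlin : ∀ z : Fin m → ℤ, ∑ i, q i * z i = 0 → z = 0 := by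
    intro z hz
    refine hq.lin z ?_
    rw [← hz]
    exact Finset.sum_congr rfl fun i _ => mul_comm _ _
  obtain ⟨δ, hδ, x₀, C₀, hlb⟩ := Pool.Agent.H83.ZU.lb_p h hr hq.rn hq.p3 ha hlp hlin
  obtain ⟨lp, hlpd⟩ : ∃ lp, lp = ∑ i, q i * l (G i) := ⟨_, rfl⟩
  rw [← hlpd] at hlb hlp
  obtain ⟨x₁, hpos⟩ := Pool.Agent.H83.ZU.lb_pos hlp hlb
  obtain ⟨x, n, hx, hn⟩ := dio q hδ (max x₁ (8 / lp))
  have hD0 : pz T G q (∏ i, G i ^ n i) = 0 := by
    rw [pz_prod ht]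
    refine Finset.sum_eq_zero fun i _ => ?_
    rw [pz_zpow ht, hz, mul_zero]
  have h2 := hpos n x ((le_max_left _ _).trans hx) hn (by
    rw [hD0, mul_zero]
    linarith)
  have h4 : 2 ≤ h0 (∏ i, G i ^ n i) 1 := by
    have h5 : 8 / lp ≤ x := (le_max_right _ _).trans hx
    rw [div_le_iff₀ hlp] at h5
    have h6 : (2 : ℝ) ≤ h0 (∏ i, G i ^ n i) 1 := by linarith
    exact_mod_cast h6
  have h5 := mov_zero h _ h4
  obtain ⟨Cf, hCf, hCf0⟩ := ex_fam h hr ν (fun D hD => (hν.ker D).1 hD) hq.rn.hA (y := pz T G q) (pz_mul ht)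
    (fun E hE => pz_eff h hr hq.rn hE) (fun U V hUV => pz_congr ht hUV) |T A A (∏ i, G i ^ n i)| fun ε hε => by
      refine ⟨∏ i, G i ^ n i, 0, h5, ?_, ?_⟩
      · simp only [Nat.cast_zero, zero_add, mul_one]
        exact le_abs_self _
      · rw [hD0]
        simp only [Nat.cast_zero, zero_add, mul_one]
        exact hε.le
  exact ⟨Cf, hCf, hCf0, le_antisymm (hdg_z h hr hq.rn hq.p3 ha hCf0) (pT_lim ht hq.rn fun W hW => nn_G h hr hCf hW)⟩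

theorem famb_of_int [IsAlgClosed k] [CharZero k] [T0Space X.P] (h : Hyp X) (hν : NumR ν)
    {l₀ : Cart X → ℝ} (hr : RR T l₀ c)
    (hT : ∀ U V W, TR (Pool.Agent.H20.TP.cR ν U) (Pool.Agent.H20.TP.cR ν V) (Pool.Agent.H20.TP.cR ν W) = T U V W)
    {l : (Fin r → ℝ) →ₗ[ℝ] ℝ} (hl : ∀ D, l (Pool.Agent.H20.TP.cR ν D) = l₀ D)
    (hp : p ∈ closure (AmpR ν)) (hlp : 0 < l p) (h3 : TR p p p = 0) (hpp : TR p p ≠ 0) (hI : SqInt ν TR p) :
    FamB ν TR p := by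
  obtain ⟨A, m, q, G, hP, ha, hz, -, e1, e2⟩ := red_pnt h hν hr hT hl hp hlp h3 hpp hI
  obtain ⟨C, hC, h1, h2⟩ := pen_pnt h hν hP ha hz
  refine ⟨C, hC.prm, fun i u v => ?_, ?_, ?_⟩
  · have h4 : TR (Pool.Agent.H20.TP.cR ν (C i)) = TR (Pool.Agent.H20.TP.cR ν (C 0)) :=
      ext_uniq hν fun U => ext_uniq hν fun V => by
        rw [hT, hT, hC.num]
    rw [h4]
  · rw [e2, h1]
  · rw [e1, h2]

/-- in case (c) the class `p ^ 2` is a multiple of an integral class -/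
theorem sqInt_of_c [IsAlgClosed k] [CharZero k] [T0Space X.P] (h : Hyp X) (hν : NumR ν) (hr : RR T l c)
    (hT : ∀ U V W, TR (Pool.Agent.H20.TP.cR ν U) (Pool.Agent.H20.TP.cR ν V) (Pool.Agent.H20.TP.cR ν W) = T U V W)
    (hp : p ∈ closure (AmpR ν)) (hC : FamC ν p) : SqInt ν TR p := by
  obtain ⟨hX, hg, F, R, τ, hF, hcl, hR, hRp, hτ, hsq⟩ := famc2_of h hr hν hT hp hC
  exact ⟨R, τ, fun D => ⟨_, hR D⟩, hsq⟩

theorem famb_of_c [IsAlgClosed k] [CharZero k] [T0Space X.P] (h : Hyp X) (hν : NumR ν)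
    {l₀ : Cart X → ℝ} (hr : RR T l₀ c)
    (hT : ∀ U V W, TR (Pool.Agent.H20.TP.cR ν U) (Pool.Agent.H20.TP.cR ν V) (Pool.Agent.H20.TP.cR ν W) = T U V W)
    {l : (Fin r → ℝ) →ₗ[ℝ] ℝ} (hl : ∀ D, l (Pool.Agent.H20.TP.cR ν D) = l₀ D)
    (hp : p ∈ closure (AmpR ν)) (hlp : 0 < l p) (h3 : TR p p p = 0) (hpp : TR p p ≠ 0) (hC : FamC ν p) :
    FamB ν TR p :=
  famb_of_int h hν hr hT hl hp hlp h3 hpp (sqInt_of_c h hν hr hT hp hC)

/-- effective, or (b) with an irrational `p ^ 2` -/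
theorem z_irr [IsAlgClosed k] [CharZero k] [T0Space X.P] (h : Hyp X) (hν : NumR ν)
    {l₀ : Cart X → ℝ} (hr : RR T l₀ c)
    (hT : ∀ U V W, TR (Pool.Agent.H20.TP.cR ν U) (Pool.Agent.H20.TP.cR ν V) (Pool.Agent.H20.TP.cR ν W) = T U V W)
    {l : (Fin r → ℝ) →ₗ[ℝ] ℝ} (hl : ∀ D, l (Pool.Agent.H20.TP.cR ν D) = l₀ D)
    (hp : p ∈ closure (AmpR ν)) (hlp : 0 < l p) (hpp : TR p p ≠ 0) :
    Pool.Agent.H39.TZ.EffR ν p ∨ (TR p p p = 0 ∧ FamB ν TR p ∧ ¬ SqInt ν TR p) := by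
  rcases (cube_nn h hr hT hp).lt_or_eq with h3 | h3
  · exact Or.inl (effr_of_big h hr hν hT hp h3)
  by_cases hI : SqInt ν TR p
  · exact Or.inl (eff_of_int h hν hr hT hl hp hlp h3.symm hpp hI)
  right
  refine ⟨h3.symm, ?_, hI⟩
  rcases z_co h hν hr hT hl (fun m A E y hA h1 h2 h4 => theorem_z h ν (fun D hD => (hν.ker D).1 hD) hr hA h1 h2 h4)
    hp hlp with h4 | h4 | h4
  · exact absurd h4 h3.not_lt
  · exact h4
  · exact absurd (sqInt_of_c h hν hr hT hp h4) hI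

/-- THEOREM Z: `p ^ 3 > 0`, or (b), or `p ^ 2 = 0` and (c) -/
theorem z_bc [IsAlgClosed k] [CharZero k] [T0Space X.P] (h : Hyp X) (hν : NumR ν)
    {l₀ : Cart X → ℝ} (hr : RR T l₀ c)
    (hT : ∀ U V W, TR (Pool.Agent.H20.TP.cR ν U) (Pool.Agent.H20.TP.cR ν V) (Pool.Agent.H20.TP.cR ν W) = T U V W)
    {l : (Fin r → ℝ) →ₗ[ℝ] ℝ} (hl : ∀ D, l (Pool.Agent.H20.TP.cR ν D) = l₀ D)
    (hp : p ∈ closure (AmpR ν)) (hlp : 0 < l p) :
    0 < TR p p p ∨ FamB ν TR p ∨ (TR p p = 0 ∧ FamC ν p) := by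
  rcases z_co h hν hr hT hl (fun m A E y hA h1 h2 h4 => theorem_z h ν (fun D hD => (hν.ker D).1 hD) hr hA h1 h2 h4)
    hp hlp with h4 | h4 | h4
  · exact Or.inl h4
  · exact Or.inr (Or.inl h4)
  · rcases (cube_nn h hr hT hp).lt_or_eq with h3 | h3
    · exact Or.inl h3
    by_cases hpp : TR p p = 0
    · exact Or.inr (Or.inr ⟨hpp, h4⟩)
    · exact Or.inr (Or.inl (famb_of_c h hν hr hT hl hp hlp h3.symm hpp h4))

end Pool.Agent.H32.TN
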