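import Pool.Agent.H32.TN.Siv
import Pool.Agent.H32.TN.Dio
import Pool.Agent.H83.ZU.Smv
import Pool.Agent.H20.TP.BigX
import Pool.Agent.H89.ZN.Fin
import Pool.Agent.H39.TZ.Bas

/-!
# [H32 TN Eff] THEOREM Z (MP_e49dc9_ag): nef real classes are effective

`EffR ν`: the cone of the effective classes in `ℝ ^ r`.
`famc_sq`: in case (c) the class `p ^ 2` is a multiple of the class of the curves.
`eff_re`: `p` nef, `l(p) > 0`, `p ^ 2 ≠ 0`: `FamB` or `p` is effective.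

PROOF.  `p ^ 3 > 0`: `big_x`.  `p ^ 3 = 0`: THEOREM Z gives (b) or (c).  In case (c), by `sq_eq`, `T(p,p,.) = τ R` with an integral `R` and
`R(p) = 0`, so `T(p,p,.) = 0` on the smallest rational space which contains `p`.  The lower bound `lb_p` gives sections of all integral
classes near `x p` in this space, `x ≥ x₁`; `p` is in the cone generated by them (`cone_dio`).
-/

set_option autoImplicit false

namespace Pool.Agent.H32.TN

open Pool.Agent.H54.RV Pool.Agent.H83.TU Pool.Agent.H83.TK Pool.Agent.H20.TD Pool.Agent.H20.TP Pool.Agent.H39.TQ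
  Pool.Agent.H39.TZ Pool.Agent.H36.TZ Pool.Agent.H89.ZN Pool.Agent.H57.KM Pool.Agent.H83.DC
open Pool.Agent.H24.VP (RR chS Tri)

variable {k K : Type} [Field k] [Field K] [Algebra k K] {X : Mod k K} {r : ℕ}
  {ν : Cart X →* Multiplicative (Fin r → ℤ)} {T : Cart X → Cart X → Cart X → ℝ} {l : Cart X → ℝ} {c : ℝ} {TR : Tri3 r}
  {p : Fin r → ℝ}

variable (ν) in
/-- the cone of the effective classes -/
def EffR : Set (Fin r → ℝ) :=
  {v | ∃ (m : ℕ) (a : Fin m → ℝ) (E : Fin m → Cart X),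
    (∀ i, 0 ≤ a i) ∧ (∀ i, Effective (E i)) ∧ v = ∑ i, a i • Pool.Agent.H20.TP.cR ν (E i)}

theorem effR_zero : (0 : Fin r → ℝ) ∈ EffR ν :=
  ⟨0, Fin.elim0, Fin.elim0, fun i => i.elim0, fun i => i.elim0, by simp⟩

theorem effR_of {ι : Type*} [Fintype ι] (a : ι → ℝ) (E : ι → Cart X) (ha : ∀ i, 0 ≤ a i)
    (hE : ∀ i, Effective (E i)) : ∑ i, a i • Pool.Agent.H20.TP.cR ν (E i) ∈ EffR ν := by
  let e := (Fintype.equivFin ι).symm
  refine ⟨Fintype.card ι, fun i => a (e i), fun i => E (e i), fun i => ha _, fun i => hE _, ?_⟩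
  exact (Equiv.sum_comp e fun i => a i • Pool.Agent.H20.TP.cR ν (E i)).symm

theorem effR_add : ∀ u ∈ EffR ν, ∀ v ∈ EffR ν, u + v ∈ EffR ν := by
  rintro _ ⟨m, a, E, ha, hE, rfl⟩ _ ⟨m', a', E', ha', hE', rfl⟩
  have h := effR_of (ν := ν) (Sum.elim a a') (Sum.elim E E') (by
    rintro (i | i)
    · exact ha i
    · exact ha' i) (by
    rintro (i | i)
    · exact hE i
    · exact hE' i)
  rw [Fintype.sum_sum_type] at h
  exact h

theorem effR_smul : ∀ c : ℝ, 0 ≤ c → ∀ v ∈ EffR ν, c • v ∈ EffR ν := by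
  rintro c hc _ ⟨m, a, E, ha, hE, rfl⟩
  refine ⟨m, fun i => c * a i, E, fun i => mul_nonneg hc (ha i), hE, ?_⟩
  rw [Finset.smul_sum]
  exact Finset.sum_congr rfl fun i _ => smul_smul _ _ _

theorem effR_sec (hν : NumR ν) {D : Cart X} (hD : 0 < h0 D 1) : Pool.Agent.H20.TP.cR ν D ∈ EffR ν := by
  obtain ⟨s, hs, hE⟩ := Pool.Agent.H20.TK.eff_of_pos _ hD
  have h1 := (hν.ker _).2 (numz_prin s hs)
  have h2 : ci ν (prin X s hs * D) = ci ν D := by
    unfold ci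
    rw [map_mul, h1, one_mul]
  have h3 := effR_of (ν := ν) (fun _ : Fin 1 => (1 : ℝ)) (fun _ => prin X s hs * D) (fun _ => zero_le_one)
    (fun _ => hE)
  rw [Fin.sum_univ_one, one_smul] at h3
  have h4 : Pool.Agent.H20.TP.cR ν (prin X s hs * D) = Pool.Agent.H20.TP.cR ν D := by
    show rv (ci ν (prin X s hs * D)) = rv (ci ν D)
    rw [h2]
  rwa [h4] at h3

/-- the cone `CC ν` is generated by the ample classes -/
theorem cc_sub (hν : NumR ν) {C : Set (Fin r → ℝ)} (h0 : (0 : Fin r → ℝ) ∈ C) (hadd : ∀ u ∈ C, ∀ v ∈ C, u + v ∈ C)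
    (hsmul : ∀ c : ℝ, 0 ≤ c → ∀ u ∈ C, c • u ∈ C) (hA : ∀ A, Ample A → Pool.Agent.H20.TP.cR ν A ∈ C) : CC ν ⊆ C := by
  classical
  rintro x ⟨δ, hδ, hx⟩
  obtain ⟨N, hN⟩ := exists_nat_gt (((r : ℝ) + 2) / δ)
  rw [div_lt_iff₀ hδ] at hN
  have hr0 : (0 : ℝ) ≤ r := Nat.cast_nonneg r
  have hN0 : (0 : ℝ) < N := by
    by_contra h1
    push Not at h1
    have : (N : ℝ) * δ ≤ 0 := mul_nonpos_of_nonpos_of_nonneg h1 hδ.le
    linarith
  have hN' : 0 < N := by exact_mod_cast hN0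
  obtain ⟨d, hd⟩ : ∃ d : Fin r → ℤ, d = fun i => ⌊(N : ℝ) * x i⌋ := ⟨_, rfl⟩
  obtain ⟨t, ht⟩ : ∃ t : Fin r → ℝ, t = fun i => (N : ℝ) * x i - d i := ⟨_, rfl⟩
  have ht0 : ∀ i, 0 ≤ t i := fun i => by
    have := Int.floor_le ((N : ℝ) * x i)
    rw [ht, hd]
    show (0 : ℝ) ≤ N * x i - (⌊(N : ℝ) * x i⌋ : ℤ)
    linarith
  have ht1 : ∀ i, t i ≤ 1 := fun i => by
    have := Int.lt_floor_add_one ((N : ℝ) * x i)
    rw [ht, hd]
    show (N : ℝ) * x i - (⌊(N : ℝ) * x i⌋ : ℤ) ≤ 1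
    linarith
  have hdx : ‖rv d - (N : ℝ) • x‖ ≤ 1 := by
    rw [pi_norm_le_iff_of_nonneg zero_le_one]
    intro i
    have e : (rv d - (N : ℝ) • x) i = - t i := by
      rw [ht, Pi.sub_apply, Pi.smul_apply, smul_eq_mul]
      show (d i : ℝ) - N * x i = -(N * x i - d i)
      ring
    rw [e, Real.norm_eq_abs, abs_neg, abs_of_nonneg (ht0 i)]
    exact ht1 i
  obtain ⟨D₀, hD₀⟩ := ci_surj hν d
  choose D hD using fun j : Fin r => ci_surj hν (d + Pi.single j ((r : ℤ) + 1))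
  have a0 : Ample D₀ := hx N D₀ hN' (by
    rw [hD₀]
    linarith)
  have a1 : ∀ j, Ample (D j) := fun j => hx N (D j) hN' (by
    rw [hD, rv_add]
    have e : rv d + rv (Pi.single j ((r : ℤ) + 1)) - (N : ℝ) • x = (rv d - (N : ℝ) • x) + rv (Pi.single j ((r : ℤ) + 1)) := by
      abel
    rw [e]
    refine (norm_add_le _ _).trans ?_
    have h1 : ‖rv (Pi.single j ((r : ℤ) + 1))‖ ≤ (r : ℝ) + 1 := by
      rw [pi_norm_le_iff_of_nonneg (by linarith)]
      intro i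
      show ‖(((Pi.single j ((r : ℤ) + 1) : Fin r → ℤ) i : ℤ) : ℝ)‖ ≤ (r : ℝ) + 1
      by_cases hij : i = j
      · subst hij
        rw [Pi.single_eq_same]
        push_cast
        rw [Real.norm_eq_abs, abs_of_nonneg (by linarith)]
      · rw [Pi.single_eq_of_ne hij, Int.cast_zero, norm_zero]
        linarith
    linarith)
  have c0 := hA _ a0
  have c1 := fun j => hA _ (a1 j)
  have hsum : ∀ (s : Finset (Fin r)) (f : Fin r → Fin r → ℝ), (∀ b, f b ∈ C) → ∑ b ∈ s, f b ∈ C := by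
    intro s f hf
    induction s using Finset.induction_on with
    | empty => rw [Finset.sum_empty]; exact h0
    | insert b s hb ih => rw [Finset.sum_insert hb]; exact hadd _ (hf b) _ ih
  have hr1 : (0 : ℝ) < r + 1 := by linarith
  have hts : ∑ j, t j / (r + 1) ≤ 1 := by
    rw [← Finset.sum_div, div_le_one hr1]
    have h1 : ∑ j : Fin r, t j ≤ ∑ _j : Fin r, (1 : ℝ) := Finset.sum_le_sum fun j _ => ht1 j
    rw [Finset.sum_const, Finset.card_univ, Fintype.card_fin, nsmul_eq_mul, mul_one] at h1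
    linarith
  have h2 := hadd _ (hsmul (1 - ∑ j, t j / (r + 1)) (by linarith) _ c0) _
    (hsum Finset.univ _ fun j => hsmul (t j / (r + 1)) (div_nonneg (ht0 j) hr1.le) _ (c1 j))
  have h3 := hsmul (N : ℝ)⁻¹ (by positivity) _ h2
  have e : x = (N : ℝ)⁻¹ • ((1 - ∑ j, t j / (r + 1)) • Pool.Agent.H20.TP.cR ν D₀ +
      ∑ j, (t j / (r + 1)) • Pool.Agent.H20.TP.cR ν (D j)) := by
    have e1 : Pool.Agent.H20.TP.cR ν D₀ = rv d := by
      show rv (ci ν D₀) = rv d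
      rw [hD₀]
    have e2 : ∀ j, Pool.Agent.H20.TP.cR ν (D j) = rv d + ((r : ℝ) + 1) • rv (Pi.single j (1 : ℤ)) := by
      intro j
      show rv (ci ν (D j)) = _
      rw [hD, rv_add]
      congr 1
      funext i
      show (((Pi.single j ((r : ℤ) + 1) : Fin r → ℤ) i : ℤ) : ℝ) = ((r : ℝ) + 1) * (((Pi.single j (1 : ℤ) : Fin r → ℤ) i : ℤ) : ℝ)
      by_cases hij : i = j
      · subst hij
        rw [Pi.single_eq_same, Pi.single_eq_same]
        push_cast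
        ring
      · rw [Pi.single_eq_of_ne hij, Pi.single_eq_of_ne hij]
        simp
    rw [e1]
    simp only [e2]
    funext i
    have e3 : (∑ j, (t j / ((r : ℝ) + 1)) • (rv d + ((r : ℝ) + 1) • rv (Pi.single j (1 : ℤ)))) i =
        (∑ j, t j / ((r : ℝ) + 1)) * d i + t i := by
      rw [Finset.sum_apply]
      have e4 : ∀ j, ((t j / ((r : ℝ) + 1)) • (rv d + ((r : ℝ) + 1) • rv (Pi.single j (1 : ℤ)))) i =
          t j / ((r : ℝ) + 1) * d i + (if j = i then t j else 0) := by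
        intro j
        show t j / ((r : ℝ) + 1) * ((d i : ℝ) + ((r : ℝ) + 1) * (((Pi.single j (1 : ℤ) : Fin r → ℤ) i : ℤ) : ℝ)) = _
        by_cases hij : j = i
        · subst hij
          rw [Pi.single_eq_same, if_pos rfl]
          push_cast
          field_simp
        · rw [Pi.single_eq_of_ne (Ne.symm hij), if_neg hij]
          simp
      rw [Finset.sum_congr rfl fun j _ => e4 j, Finset.sum_add_distrib, ← Finset.sum_mul]
      simp
    rw [Pi.smul_apply, Pi.add_apply, e3, Pi.smul_apply, smul_eq_mul, smul_eq_mul]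
    show x i = (N : ℝ)⁻¹ * ((1 - ∑ j, t j / ((r : ℝ) + 1)) * (d i : ℝ) + ((∑ j, t j / ((r : ℝ) + 1)) * d i + t i))
    have e5 : (1 - ∑ j, t j / ((r : ℝ) + 1)) * (d i : ℝ) + ((∑ j, t j / ((r : ℝ) + 1)) * d i + t i) = N * x i := by
      rw [ht]
      ring
    rw [e5, ← mul_assoc, inv_mul_cancel₀ hN0.ne', one_mul]
  rw [e]
  exact h3

theorem cc_effR [CharZero k] [IsAlgClosed k] [T0Space X.P] (h : Hyp X) (hν : NumR ν) : CC ν ⊆ EffR ν := by
  refine cc_sub hν effR_zero effR_add effR_smul fun A hA => ?_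
  obtain ⟨m₀, hm₀, hB⟩ := Pool.Agent.H20.TK.bpf_exists h.var A hA
  have h1 := effR_sec hν (Pool.Agent.H20.TQ.bpf_pos h hB)
  have hm : (0 : ℝ) < m₀ := by exact_mod_cast hm₀
  have h2 := effR_smul (m₀ : ℝ)⁻¹ (by positivity) _ h1
  have e : (m₀ : ℝ)⁻¹ • Pool.Agent.H20.TP.cR ν (A ^ m₀) = Pool.Agent.H20.TP.cR ν A := by
    show (m₀ : ℝ)⁻¹ • rv (ci ν (A ^ m₀)) = rv (ci ν A)
    rw [ci_pow, rv_smul, Int.cast_natCast, smul_smul, inv_mul_cancel₀ hm.ne', one_smul]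
  rwa [e] at h2

/-- big classes -/
theorem eff_big [CharZero k] [IsAlgClosed k] [T0Space X.P] (h : Hyp X) (hr : RR T l c) (hν : NumR ν)
    (hT : ∀ U V W, TR (Pool.Agent.H20.TP.cR ν U) (Pool.Agent.H20.TP.cR ν V) (Pool.Agent.H20.TP.cR ν W) = T U V W)
    (hp : p ∈ closure (CC ν)) (h3 : 0 < TR p p p) : p ∈ EffR ν := by
  obtain ⟨G, x₀, hx₀, hG, hc⟩ := big_x h hr hν hT hp h3
  have h1 := effR_add _ (effR_sec hν hG) _ (cc_effR h hν hc)
  have e : x₀⁻¹ • (Pool.Agent.H20.TP.cR ν G + (x₀ • p - Pool.Agent.H20.TP.cR ν G)) = p := by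
    rw [add_sub_cancel, smul_smul, inv_mul_cancel₀ hx₀.ne', one_smul]
  rw [← e]
  exact effR_smul _ (by positivity) _ h1

/-- the class of a product of powers -/
theorem cR_pw {m : ℕ} (G' : Fin m → Cart X) (n : Fin m → ℤ) :
    Pool.Agent.H20.TP.cR ν (∏ i, G' i ^ n i) = ∑ i, (n i : ℝ) • Pool.Agent.H20.TP.cR ν (G' i) := by
  show rv (ci ν (∏ i, G' i ^ n i)) = ∑ i, (n i : ℝ) • rv (ci ν (G' i))
  rw [ci_prod]
  funext j
  show ((((∑ i, ci ν (G' i ^ n i)) j : ℤ)) : ℝ) = _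
  rw [Finset.sum_apply, Finset.sum_apply]
  push_cast
  refine Finset.sum_congr rfl fun i _ => ?_
  rw [ci_zpow, Pi.smul_apply, Pi.smul_apply]
  show (((n i • ci ν (G' i) j : ℤ)) : ℝ) = (n i : ℝ) • (((ci ν (G' i) j : ℤ)) : ℝ)
  rw [smul_eq_mul, smul_eq_mul]
  push_cast
  rfl

/-- coefficients linearly independent over `ℚ`, `T(p,p,G i) = 0` for all `i` -/
theorem eff_pnt [CharZero k] [T0Space X.P] (h : Hyp X) (hν : NumR ν) {m : ℕ} {G : Fin m → Cart X} {q : Fin m → ℝ}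
    {A : Cart X} (hq : Pnt T l c A G q) (ha : 0 < pz T G q A) (hz : ∀ i, pz T G q (G i) = 0) :
    ∑ i, q i • Pool.Agent.H20.TP.cR ν (G i) ∈ EffR ν := by
  have hlp : 0 < ∑ i, q i * l (G i) := hq.lp
  have hlin : ∀ z : Fin m → ℤ, ∑ i, q i * z i = 0 → z = 0 := by
    intro z hz
    refine hq.lin z ?_
    rw [← hz]
    exact Finset.sum_congr rfl fun i _ => mul_comm _ _
  obtain ⟨δ, hδ, x₀, C₀, hlb⟩ := Pool.Agent.H83.ZU.lb_p h hq.hr hq.rn hq.p3 ha hlp hlin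
  obtain ⟨lp, hlpd⟩ : ∃ lp, lp = ∑ i, q i * l (G i) := ⟨_, rfl⟩
  rw [← hlpd] at hlb hlp
  obtain ⟨x₁, hpos⟩ := Pool.Agent.H83.ZU.lb_pos hlp hlb
  refine cone_dio (p := q) (C := {v | ∑ i, v i • Pool.Agent.H20.TP.cR ν (G i) ∈ EffR ν}) hq.lin hδ (max x₁ 1) ?_ ?_ ?_ ?_
  · show ∑ i, (0 : Fin m → ℝ) i • _ ∈ EffR ν
    simp only [Pi.zero_apply, zero_smul, Finset.sum_const_zero]
    exact effR_zero
  · intro u hu v hv
    show ∑ i, (u + v) i • _ ∈ EffR ν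
    simp only [Pi.add_apply, add_smul, Finset.sum_add_distrib]
    exact effR_add _ hu _ hv
  · intro c hc u hu
    show ∑ i, (c • u) i • _ ∈ EffR ν
    simp only [Pi.smul_apply, smul_eq_mul, mul_smul]
    rw [← Finset.smul_sum]
    exact effR_smul c hc _ hu
  · intro n x hx hn
    show ∑ i, (n i : ℝ) • _ ∈ EffR ν
    have h1 : pz T G q (∏ i, G i ^ n i) = 0 := by
      rw [pz_prod hq.hr.tri]
      refine Finset.sum_eq_zero fun i _ => ?_
      rw [pz_zpow hq.hr.tri, hz, mul_zero]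
    have h2 := hpos n x ((le_max_left _ _).trans hx) hn (by
      rw [h1, mul_zero]
      linarith)
    have hx1 : (1 : ℝ) ≤ x := (le_max_right _ _).trans hx
    have h3 : (0 : ℝ) < h0 (∏ i, G i ^ n i) 1 := lt_of_lt_of_le (by positivity) h2
    rw [← cR_pw (ν := ν) G n]
    exact effR_sec hν (by exact_mod_cast h3)

/-- case (c): `p ^ 2` is a multiple of the class of the curves -/
theorem famc_sq [CharZero k] [IsAlgClosed k] [T0Space X.P] (h : Hyp X) (hr : RR T l c) (hν : NumR ν)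
    (hT : ∀ U V W, TR (Pool.Agent.H20.TP.cR ν U) (Pool.Agent.H20.TP.cR ν V) (Pool.Agent.H20.TP.cR ν W) = T U V W)
    (hp : p ∈ closure (CC ν)) {F : IntermediateField k K} (hF : Algebra.trdeg F K = 1)
    {R : (Fin r → ℝ) →ₗ[ℝ] ℝ} (hR : ∀ D, R (Pool.Agent.H20.TP.cR ν D) = RF h.var h.gen F D) (hRp : R p = 0) :
    ∃ τ : ℝ, 0 ≤ τ ∧ ∀ v, TR p p v = τ * R v := by
  have hRF := rfun_rf h.var h.gen (Pool.Agent.H83.TU.uf_all h.var) F hF
  obtain ⟨A, hA⟩ := h.amp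
  refine sq_eq h hr hν hT hp (R := R) (fun D hD => ?_) hRp (a := Pool.Agent.H20.TP.cR ν A) ?_
  · obtain ⟨s, hs, hE⟩ := Pool.Agent.H20.TK.eff_of_pos _ hD
    have h1 := hRF.eff _ hE
    rw [hRF.add, rfun_numz h _ hRF _ (numz_prin s hs), zero_add] at h1
    rw [hR]
    exact_mod_cast h1
  · rw [hR]
    exact_mod_cast hRF.amp A hA

/-- nef real classes in case (c) are effective -/
theorem eff_of_c [IsAlgClosed k] [CharZero k] [T0Space X.P] (h : Hyp X) (hν : NumR ν)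
    {l₀ : Cart X → ℝ} (hr : RR T l₀ c)
    (hT : ∀ U V W, TR (Pool.Agent.H20.TP.cR ν U) (Pool.Agent.H20.TP.cR ν V) (Pool.Agent.H20.TP.cR ν W) = T U V W)
    {l : (Fin r → ℝ) →ₗ[ℝ] ℝ} (hl : ∀ D, l (Pool.Agent.H20.TP.cR ν D) = l₀ D)
    (hp : p ∈ closure (AmpR ν)) (hlp : 0 < l p) (hpp : TR p p ≠ 0) (h3 : TR p p p = 0)
    {F : IntermediateField k K} (hF : Algebra.trdeg F K = 1)
    {R : (Fin r → ℝ) →ₗ[ℝ] ℝ} (hR : ∀ D, R (Pool.Agent.H20.TP.cR ν D) = RF h.var h.gen F D) (hRp : R p = 0) :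
    p ∈ EffR ν := by
  have hp' : p ∈ closure (CC ν) := by
    rw [← cl_eq h.var hν]
    exact hp
  obtain ⟨τ, hτ, hsq⟩ := famc_sq h hr hν hT hp' hF (R := R) hR hRp
  obtain ⟨E, hE⟩ := exists_E hν
  obtain ⟨A, hA⟩ := h.amp
  have hn := nfr_of h.var hν hA hE hp
  obtain ⟨m, q, c', hlin, hy⟩ := red_lin p
  obtain ⟨G, hG⟩ : ∃ G : Fin m → Cart X, G = fun i => ∏ j, E j ^ c' j i := ⟨_, rfl⟩
  have hd : ∀ δ : Cart X → ℝ, (∀ U V, δ (U * V) = δ U + δ V) → dl δ G q = dl δ E p := by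
    intro δ hδ
    rw [hG]
    exact red_dl E p q c' hy δ hδ
  have hnG : Nfr A G q := by
    rw [hG]
    exact nfr_red h hA E p q c' hy hn
  have hP : Pnt T l₀ c A G q := by
    refine ⟨hr, rn_of h hA hnG, hlin, ?_, ?_⟩
    · rw [trf_p3 hr.tri hd, ← T_p3 hT hE]
      exact h3
    · rw [hd l₀ hr.ladd, ← l_dl hl hE]
      exact hlp
  have hpz : ∀ U, pz T G q U = τ * R (Pool.Agent.H20.TP.cR ν U) := fun U => by
    rw [trf_pz hr.tri hd, ← T_pz hT hE, hsq]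
  have hRF := rfun_rf h.var h.gen (Pool.Agent.H83.TU.uf_all h.var) F hF
  have hRadd : ∀ U V, ((RF h.var h.gen F (U * V) : ℤ) : ℝ) = RF h.var h.gen F U + RF h.var h.gen F V :=
    fun U V => by exact_mod_cast hRF.add U V
  have hRG : ∀ i, R (Pool.Agent.H20.TP.cR ν (G i)) = 0 := by
    have h1 : ∑ i, ((RF h.var h.gen F (G i) : ℤ) : ℝ) * q i = 0 := by
      have h2 := hd (fun D => ((RF h.var h.gen F D : ℤ) : ℝ)) hRadd
      have h4 : dl (fun D => ((RF h.var h.gen F D : ℤ) : ℝ)) E p = 0 := by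
        rw [← l_dl hR hE]
        exact hRp
      rw [h4] at h2
      rw [← h2]
      unfold dl
      exact Finset.sum_congr rfl fun i _ => mul_comm _ _
    have h2 := hlin (fun i => RF h.var h.gen F (G i)) h1
    intro i
    rw [hR]
    have h4 := congrFun h2 i
    simp only [Pi.zero_apply] at h4
    rw [h4, Int.cast_zero]
  have hτ0 : 0 < τ := by
    rcases hτ.lt_or_eq with h4 | h4
    · exact h4
    · exfalso
      refine hpp (LinearMap.ext fun v => ?_)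
      rw [hsq, ← h4, zero_mul, LinearMap.zero_apply]
  have h5 := eff_pnt h hν hP (by
    rw [hpz, hR]
    exact mul_pos hτ0 (by exact_mod_cast hRF.amp A hA)) fun i => by rw [hpz, hRG, mul_zero]
  have e : ∑ i, q i • Pool.Agent.H20.TP.cR ν (G i) = p := by
    funext j
    have h6 := hd (fun D => Pool.Agent.H20.TP.cR ν D j) fun U V => by
      show (((ci ν (U * V) j : ℤ)) : ℝ) = ((ci ν U j : ℤ) : ℝ) + ((ci ν V j : ℤ) : ℝ)
      rw [ci_mul, Pi.add_apply, Int.cast_add]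
    have h7 : dl (fun D => Pool.Agent.H20.TP.cR ν D j) E p = p j := by
      conv_rhs => rw [p_eq hE p]
      rw [Finset.sum_apply]
      rfl
    rw [h7] at h6
    rw [← h6, Finset.sum_apply]
    rfl
  rwa [e] at h5

/-- nef real classes are effective -/
theorem eff_re [IsAlgClosed k] [CharZero k] [T0Space X.P] (h : Hyp X) (hν : NumR ν)
    {l₀ : Cart X → ℝ} (hr : RR T l₀ c)
    (hT : ∀ U V W, TR (Pool.Agent.H20.TP.cR ν U) (Pool.Agent.H20.TP.cR ν V) (Pool.Agent.H20.TP.cR ν W) = T U V W)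
    {l : (Fin r → ℝ) →ₗ[ℝ] ℝ} (hl : ∀ D, l (Pool.Agent.H20.TP.cR ν D) = l₀ D)
    (hz : ∀ (m : ℕ) (A : Cart X) (E : Fin m → Cart X) (y : Fin m → ℝ), Ample A → Nfr A E y → p3 T E y = 0 →
      0 < dl l₀ E y → Pen T E y ∨ Cur h.var h.gen E y)
    (hp : p ∈ closure (AmpR ν)) (hlp : 0 < l p) (hpp : TR p p ≠ 0) : FamB ν TR p ∨ p ∈ EffR ν := by
  have hp' : p ∈ closure (CC ν) := by
    rw [← cl_eq h.var hν]
    exact hp
  rcases z_co h hν hr hT hl hz hp hlp with h3 | h3 | ⟨hX, hg, F, R, hF, hcl, hR, hRp⟩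
  · exact Or.inr (eff_big h hr hν hT hp' h3)
  · exact Or.inl h3
  right
  rcases (cube_nn h hr hT hp).lt_or_eq with h3 | h3
  · exact eff_big h hr hν hT hp' h3
  · exact eff_of_c h hν hr hT hl hp hlp hpp h3.symm hF hR hRp

/-- all nef classes are effective -/
theorem eff_all [IsAlgClosed k] [CharZero k] [T0Space X.P] (h : Hyp X) (hν : NumR ν)
    {l₀ : Cart X → ℝ} (hr : RR T l₀ c)
    (hT : ∀ U V W, TR (Pool.Agent.H20.TP.cR ν U) (Pool.Agent.H20.TP.cR ν V) (Pool.Agent.H20.TP.cR ν W) = T U V W)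
    {l : (Fin r → ℝ) →ₗ[ℝ] ℝ} (hl : ∀ D, l (Pool.Agent.H20.TP.cR ν D) = l₀ D)
    (hz : ∀ (m : ℕ) (A : Cart X) (E : Fin m → Cart X) (y : Fin m → ℝ), Ample A → Nfr A E y → p3 T E y = 0 →
      0 < dl l₀ E y → Pen T E y ∨ Cur h.var h.gen E y)
    (hH : ∀ p ∈ closure (AmpR ν), p ≠ 0 → TR p p p = 0 → 0 < l p ∧ TR p p ≠ 0 ∧ ¬ FamB ν TR p) :
    closure (AmpR ν) ⊆ EffR ν := by
  intro p hp
  by_cases h0 : p = 0
  · rw [h0]
    exact effR_zero
  rcases (cube_nn h hr hT hp).lt_or_eq with h3 | h3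
  · refine eff_big h hr hν hT ?_ h3
    rw [← cl_eq h.var hν]
    exact hp
  · obtain ⟨h4, h5, h6⟩ := hH p hp h0 h3.symm
    exact (eff_re h hν hr hT hl hz hp h4 h5).resolve_left h6

/-- from `ℝ ^ r` to `N1 X` -/
theorem nefC_sub [IsAlgClosed k] [CharZero k] (hX : IsVar X) {b : LatB X r} (hb : ∀ D, cl D = pt b (rv (ci ν D)))
    (hE : closure (AmpR ν) ⊆ EffR ν) : NefC X ⊆ EffC X := by
  have := fd_of_basis hX b
  intro v hv
  obtain ⟨x, rfl⟩ := (pt_bij hX b).2 v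
  obtain ⟨m, a, E, ha, hE', rfl⟩ := hE ((pt_nef hX hb x).2 hv)
  refine ⟨m, a, E, ha, hE', ?_⟩
  rw [pt_sum]
  exact Finset.sum_congr rfl fun i _ => by rw [pt_smul, hb]

end Pool.Agent.H32.TN
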