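import Pool.Agent.H32.TN.Eff
import Pool.Agent.H39.TZ.Def2
import Pool.Agent.H89.ZN.Thm

/-!
# [H32 TN For] THEOREM Z (MP_e49dc9_ag): the forms for the final statement

`effr_of_big`: `p` nef, `p ^ 3 > 0`: `EffR ν p`.
`famc2_of`: `FamC ν p` implies `FamC2 ν T p` for nef `p`.
`effr_of_c`: `FamC ν p`, `p ^ 3 = 0`, `p ^ 2 ≠ 0`, `l(p) > 0`: `EffR ν p`.
-/

set_option autoImplicit false

namespace Pool.Agent.H32.TN

open Pool.Agent.H54.RV Pool.Agent.H83.TU Pool.Agent.H83.TK Pool.Agent.H20.TD Pool.Agent.H20.TP Pool.Agent.H39.TQ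
  Pool.Agent.H36.TZ Pool.Agent.H89.ZN Pool.Agent.H57.KM Pool.Agent.H83.DC
open Pool.Agent.H24.VP (RR chS Tri)
open Pool.Agent.H39.TZ (FamB FamC FamC2 HilbR)

variable {k K : Type} [Field k] [Field K] [Algebra k K] {X : Mod k K} {r : ℕ}
  {ν : Cart X →* Multiplicative (Fin r → ℤ)} {T : Cart X → Cart X → Cart X → ℝ} {l : Cart X → ℝ} {c : ℝ} {TR : Tri3 r}
  {p : Fin r → ℝ}

theorem effr_iff (p : Fin r → ℝ) : Pool.Agent.H39.TZ.EffR ν p ↔ p ∈ EffR ν :=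
  ⟨fun ⟨m, a, E, h1, h2⟩ => ⟨m, a, E, fun i => (h1 i).1, fun i => (h1 i).2, h2⟩,
    fun ⟨m, a, E, h1, h2, h3⟩ => ⟨m, a, E, fun i => ⟨h1 i, h2 i⟩, h3⟩⟩

theorem effr_of_big [CharZero k] [IsAlgClosed k] [T0Space X.P] (h : Hyp X) (hr : RR T l c) (hν : NumR ν)
    (hT : ∀ U V W, TR (Pool.Agent.H20.TP.cR ν U) (Pool.Agent.H20.TP.cR ν V) (Pool.Agent.H20.TP.cR ν W) = T U V W)
    (hp : p ∈ closure (AmpR ν)) (h3 : 0 < TR p p p) : Pool.Agent.H39.TZ.EffR ν p := by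
  rw [effr_iff]
  refine eff_big h hr hν hT ?_ h3
  rw [← cl_eq h.var hν]
  exact hp

theorem famc2_of [CharZero k] [IsAlgClosed k] [T0Space X.P] (h : Hyp X) (hr : RR T l c) (hν : NumR ν)
    (hT : ∀ U V W, TR (Pool.Agent.H20.TP.cR ν U) (Pool.Agent.H20.TP.cR ν V) (Pool.Agent.H20.TP.cR ν W) = T U V W)
    (hp : p ∈ closure (AmpR ν)) (hC : FamC ν p) : FamC2 ν TR p := by
  obtain ⟨hX, hg, F, R, hF, hcl, hR, hRp⟩ := hC
  obtain ⟨τ, hτ, hsq⟩ := famc_sq (R := R) h hr hν hT (by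
    rw [← cl_eq h.var hν]
    exact hp) hF hR hRp
  exact ⟨hX, hg, F, R, τ, hF, hcl, hR, hRp, hτ, hsq⟩

/-- case (c) -/
theorem effr_of_c [CharZero k] [IsAlgClosed k] [T0Space X.P] (h : Hyp X) (hν : NumR ν)
    {l₀ : Cart X → ℝ} (hr : RR T l₀ c)
    (hT : ∀ U V W, TR (Pool.Agent.H20.TP.cR ν U) (Pool.Agent.H20.TP.cR ν V) (Pool.Agent.H20.TP.cR ν W) = T U V W)
    {l : (Fin r → ℝ) →ₗ[ℝ] ℝ} (hl : ∀ D, l (Pool.Agent.H20.TP.cR ν D) = l₀ D)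
    (hp : p ∈ closure (AmpR ν)) (hlp : 0 < l p) (h3 : TR p p p = 0) (hpp : TR p p ≠ 0) (hC : FamC ν p) :
    Pool.Agent.H39.TZ.EffR ν p := by
  rw [effr_iff]
  obtain ⟨hX, hg, F, R, hF, hcl, hR, hRp⟩ := hC
  exact eff_of_c h hν hr hT hl hp hlp hpp h3 hF hR hRp

end Pool.Agent.H32.TN
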