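import Pool.Agent.H39.TZ.Asm
import Pool.Agent.H20.TQ.Big

/-!
# [H32 TN Siv] THEOREM Z (MP_e49dc9_ag): Siu counting at real nef classes

`siv`: `W` ample, `G` ample without base points, `3 a T(W,W,G) < T(W,W,W)`: some `n W - j G` with `j > n a` has a section.
`sq_dir`: `p` nef, `R` a linear functional which is not negative on the classes with sections, `R(p) = 0`: `T(p,p,v) > 0`
implies `R(v) ≥ 0`.
`sq_eq`: then `T(p,p,.)` is a multiple of `R`.

PROOF of `sq_dir`: let `T(p,p,v) > 0`, `R(v) < 0`; we may assume that `v = a - m H` is integral, `a` ample.  For `t` large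
`(t p + a) ^ 3 - 3 m (t p + a) ^ 2 H = t ^ 3 p ^ 3 + 3 t ^ 2 T(p,p,v) + O(t) > 0`.  So for an integral `W` near `N (t p + a)` the class
`n W - j H` has a section for some `n` and `j > n N m`: `0 ≤ R(n W - j H) ≤ n (N R(v) + O(1))`, a contradiction for large `N`.
-/

set_option autoImplicit false

namespace Pool.Agent.H32.TN

open Pool.Agent.H54.RV Pool.Agent.H83.TU Pool.Agent.H83.TK Pool.Agent.H20.TD Pool.Agent.H20.TP
open Pool.Agent.H24.VP (RR chS Tri)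

variable {k K : Type} [Field k] [Field K] [Algebra k K] {X : Mod k K} {r : ℕ}
  {ν : Cart X →* Multiplicative (Fin r → ℤ)} {T : Cart X → Cart X → Cart X → ℝ} {l : Cart X → ℝ} {c : ℝ} {TR : Tri3 r}
  {p : Fin r → ℝ}

private theorem tri_eq (TR : Tri3 r) (u v w : Fin r → ℝ) :
    TR u v w = ∑ i, ∑ j, ∑ m, u i * (v j * (w m * TR (Pi.basisFun ℝ (Fin r) i) (Pi.basisFun ℝ (Fin r) j)
      (Pi.basisFun ℝ (Fin r) m))) := by
  classical
  let b := Pi.basisFun ℝ (Fin r)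
  have hu : ∀ u : Fin r → ℝ, ∑ i, u i • b i = u := by
    intro u
    have := b.sum_repr u
    simpa [b] using this
  have hA : ∀ u v w : Fin r → ℝ, TR u v w = ∑ i, u i * TR (b i) v w := by
    intro u v w
    have h1 : TR (∑ i, u i • b i) v w = ∑ i, u i * TR (b i) v w := by
      rw [map_sum, LinearMap.sum_apply, LinearMap.sum_apply]
      exact Finset.sum_congr rfl fun i _ => by
        rw [map_smul, LinearMap.smul_apply, LinearMap.smul_apply, smul_eq_mul]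
    rw [← h1, hu]
  have hB : ∀ u v w : Fin r → ℝ, TR u v w = ∑ i, v i * TR u (b i) w := by
    intro u v w
    have h1 : TR u (∑ i, v i • b i) w = ∑ i, v i * TR u (b i) w := by
      rw [map_sum, LinearMap.sum_apply]
      exact Finset.sum_congr rfl fun i _ => by
        rw [map_smul, LinearMap.smul_apply, smul_eq_mul]
    rw [← h1, hu]
  have hC : ∀ u v w : Fin r → ℝ, TR u v w = ∑ i, w i * TR u v (b i) := by
    intro u v w
    have h1 : TR u v (∑ i, w i • b i) = ∑ i, w i * TR u v (b i) := by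
      rw [map_sum]
      exact Finset.sum_congr rfl fun i _ => by rw [map_smul, smul_eq_mul]
    rw [← h1, hu]
  rw [hA u v w]
  refine Finset.sum_congr rfl fun i _ => ?_
  rw [hB (b i) v w, Finset.mul_sum]
  refine Finset.sum_congr rfl fun j _ => ?_
  rw [hC (b i) (b j) w, Finset.mul_sum, Finset.mul_sum]

private theorem tri_cont (TR : Tri3 r) (s : Fin r → ℝ) (δ : ℝ) :
    Continuous fun u : Fin r → ℝ => TR u u u - 3 * δ * TR u u s := by
  have e : (fun u : Fin r → ℝ => TR u u u - 3 * δ * TR u u s) = fun u : Fin r → ℝ =>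
      (∑ i, ∑ j, ∑ m, u i * (u j * (u m * TR (Pi.basisFun ℝ (Fin r) i) (Pi.basisFun ℝ (Fin r) j)
      (Pi.basisFun ℝ (Fin r) m)))) - 3 * δ * ∑ i, ∑ j, ∑ m, u i * (u j * (s m *
      TR (Pi.basisFun ℝ (Fin r) i) (Pi.basisFun ℝ (Fin r) j) (Pi.basisFun ℝ (Fin r) m))) := by
    funext u
    rw [tri_eq TR u u u, tri_eq TR u u s]
  rw [e]
  fun_prop

theorem siv [CharZero k] [IsAlgClosed k] [T0Space X.P] (h : Hyp X) (hr : RR T l c) {W G : Cart X} (hWA : Ample W)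
    (hB : Pool.Agent.H20.TK.Bpf G) {a : ℝ} (ha0 : 0 < a) (hm3 : 3 * a * T W W G < T W W W) :
    ∃ n j : ℕ, 0 < n ∧ (n : ℝ) * a < j ∧ 0 < h0 (W ^ n * (G ^ j)⁻¹) 1 := by
  obtain ⟨n0, h0'⟩ := Pool.Agent.H20.TQ.count h hWA hB
  obtain ⟨n1, h1⟩ := hr.ev 1 W hWA
  obtain ⟨n2, h2⟩ := hr.ev G⁻¹ W hWA
  obtain ⟨V, hV⟩ : ∃ V, V = T W W W := ⟨_, rfl⟩
  obtain ⟨Q, hQ⟩ : ∃ Q, Q = T W W G := ⟨_, rfl⟩
  have hQ0 : 0 ≤ Q := by
    have := Pool.Agent.H20.TQ.eff_nn h hr (Pool.Agent.H20.TQ.bpf_pos h hB) hWA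
    rw [hQ, hr.tri.s23, hr.tri.s12]
    exact this
  rw [← hV, ← hQ] at hm3
  obtain ⟨e, he⟩ : ∃ e, e = |T W G G| / 2 + |T G G G| / 6 + |l G| := ⟨_, rfl⟩
  have he0 : 0 ≤ e := by rw [he]; positivity
  obtain ⟨δ, hδ⟩ : ∃ δ, δ = V / 6 - a * Q / 2 := ⟨_, rfl⟩
  have hδ0 : 0 < δ := by rw [hδ]; linarith
  obtain ⟨n, hn⟩ := exists_nat_gt (max (max (n0 : ℝ) n1) (max (n2 : ℝ) ((e * a + Q / 2 + e + |l W| + |c|) / δ + 1)))
  have g0 : n0 ≤ n := by
    have : (n0 : ℝ) < n := lt_of_le_of_lt ((le_max_left _ _).trans (le_max_left _ _)) hn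
    exact_mod_cast this.le
  have g1 : n1 ≤ n := by
    have : (n1 : ℝ) < n := lt_of_le_of_lt ((le_max_right _ _).trans (le_max_left _ _)) hn
    exact_mod_cast this.le
  have g2 : n2 ≤ n := by
    have : (n2 : ℝ) < n := lt_of_le_of_lt ((le_max_left _ _).trans (le_max_right _ _)) hn
    exact_mod_cast this.le
  have g3 : (e * a + Q / 2 + e + |l W| + |c|) / δ + 1 < n :=
    lt_of_le_of_lt ((le_max_right _ _).trans (le_max_right _ _)) hn
  have g4 : 0 ≤ (e * a + Q / 2 + e + |l W| + |c|) / δ := by positivity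
  have hn1 : (1 : ℝ) ≤ n := by linarith
  have g5 : e * a + Q / 2 + e + |l W| + |c| < n * δ := by
    have : (e * a + Q / 2 + e + |l W| + |c|) / δ < n := by linarith
    rwa [div_lt_iff₀ hδ0] at this
  obtain ⟨j, hj⟩ : ∃ j, j = ⌊(n : ℝ) * a⌋₊ + 1 := ⟨_, rfl⟩
  have hj1 : (n : ℝ) * a < j := by
    rw [hj]
    push_cast
    exact Nat.lt_floor_add_one _
  have hj2 : (j : ℝ) ≤ n * a + 1 := by
    rw [hj]
    push_cast
    have := Nat.floor_le (show 0 ≤ (n : ℝ) * a by positivity)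
    linarith
  have a0 := h0' n g0 j
  have a1 := h1 n g1
  have a2 := h2 n g2
  have a3 := hr.chi_sub G (W ^ n)
  rw [one_mul] at a1
  rw [mul_comm] at a2
  rw [a1, a2, a3] at a0
  have a4 : chS T l G (W ^ n) ≤ n ^ 2 * (Q / 2) + n * e := by
    unfold chS
    rw [hr.tri.pow, hr.tri.pow2, hr.tri.pow, ← hQ, he]
    have b1 := neg_le_abs (T W G G)
    have b2 := le_abs_self (T G G G)
    have b3 := le_abs_self (l G)
    have b4 : (n : ℝ) * -T W G G ≤ n * |T W G G| := mul_le_mul_of_nonneg_left b1 (by linarith)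
    have b5 : 1 * |T G G G| ≤ n * |T G G G| := mul_le_mul_of_nonneg_right hn1 (abs_nonneg _)
    have b6 : 1 * |l G| ≤ n * |l G| := mul_le_mul_of_nonneg_right hn1 (abs_nonneg _)
    nlinarith
  have a5 : (j : ℝ) * chS T l G (W ^ n) ≤ (n * a + 1) * (n ^ 2 * (Q / 2) + n * e) := by
    refine (mul_le_mul_of_nonneg_left a4 (Nat.cast_nonneg j)).trans ?_
    exact mul_le_mul_of_nonneg_right hj2 (by positivity)
  have a6 : Pool.Agent.H24.VP.chi T l c (W ^ n) = n ^ 3 * (V / 6) + n * l W + c := by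
    unfold Pool.Agent.H24.VP.chi
    rw [hr.tri.pow, hr.tri.pow2, hr.tri.pow3, hr.l_pow, ← hV]
    ring
  rw [a6] at a0
  have a7 : 0 < (h0 (W ^ n * (G ^ j)⁻¹) 1 : ℝ) := by
    have b1 : (n : ℝ) ^ 2 * (e * a + Q / 2 + e + |l W| + |c|) < n ^ 2 * (n * δ) :=
      mul_lt_mul_of_pos_left g5 (by positivity)
    have b2 := neg_abs_le (l W)
    have b3 := neg_abs_le c
    have b4 : (n : ℝ) * 1 ≤ n * n := mul_le_mul_of_nonneg_left hn1 (by linarith)
    have b5 : (n : ℝ) * -|l W| ≤ n * l W := mul_le_mul_of_nonneg_left b2 (by linarith)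
    have b6 : (n : ℝ) * |l W| ≤ n ^ 2 * |l W| := mul_le_mul_of_nonneg_right (by nlinarith) (abs_nonneg _)
    have b7 : 1 * |c| ≤ (n : ℝ) ^ 2 * |c| := mul_le_mul_of_nonneg_right (by nlinarith) (abs_nonneg _)
    have b8 : (n : ℝ) * e ≤ n ^ 2 * e := mul_le_mul_of_nonneg_right (by nlinarith) he0
    have b9 : (n : ℝ) ^ 3 * (V / 6) = n ^ 2 * (n * δ) + n ^ 3 * (a * Q / 2) := by
      rw [hδ]
      ring
    nlinarith
  have hn0 : (0 : ℝ) < n := by linarith
  exact ⟨n, j, by exact_mod_cast hn0, hj1, by exact_mod_cast a7⟩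

section sym

theorem tr_s12 (hν : NumR ν) (ht : Tri T) (hT : ∀ U V W, TR (cR ν U) (cR ν V) (cR ν W) = T U V W)
    (u v w : Fin r → ℝ) : TR u v w = TR v u w := by
  have h1 : TR = TR.flip := ext_uniq hν fun U => ext_uniq hν fun V => ext_uniq hν fun W => by
    rw [hT, LinearMap.flip_apply, hT, ht.s12]
  exact LinearMap.congr_fun (LinearMap.congr_fun (LinearMap.congr_fun h1 u) v) w

theorem tr_s23 (hν : NumR ν) (ht : Tri T) (hT : ∀ U V W, TR (cR ν U) (cR ν V) (cR ν W) = T U V W)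
    (u v w : Fin r → ℝ) : TR u v w = TR u w v := by
  have h1 : (TR.flip v).flip w = (TR.flip w).flip v := ext_uniq hν fun U => by
    have h2 : TR (cR ν U) = (TR (cR ν U)).flip :=
      ext_uniq hν fun V => ext_uniq hν fun W => by rw [hT, LinearMap.flip_apply, hT, ht.s23]
    exact LinearMap.congr_fun (LinearMap.congr_fun h2 v) w
  exact LinearMap.congr_fun h1 u

theorem lin_bd (R : (Fin r → ℝ) →ₗ[ℝ] ℝ) : ∃ C : ℝ, 0 ≤ C ∧ ∀ v, ‖v‖ ≤ 1 → |R v| ≤ C := by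
  obtain ⟨R', hR'⟩ : ∃ R' : (Fin r → ℝ) →L[ℝ] ℝ, ∀ v, R' v = R v := ⟨LinearMap.toContinuousLinearMap R, fun v => rfl⟩
  refine ⟨‖R'‖, norm_nonneg _, fun v hv => ?_⟩
  rw [← hR', ← Real.norm_eq_abs]
  exact R'.unit_le_opNorm v hv

/-- a cubic polynomial with positive second coefficient and not negative first coefficient -/
theorem cub_ev {a b c d : ℝ} (ha : 0 ≤ a) (hb : 0 < b) : ∃ t : ℝ, 1 ≤ t ∧ 0 < t ^ 3 * a + t ^ 2 * b + t * c + d := by
  obtain ⟨t, ht⟩ : ∃ t : ℝ, t = 1 + (|c| + |d|) / b := ⟨_, rfl⟩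
  have h1 : 0 ≤ (|c| + |d|) / b := by positivity
  have ht1 : 1 ≤ t := by rw [ht]; linarith
  refine ⟨t, ht1, ?_⟩
  have h2 : t * b = b + |c| + |d| := by
    rw [ht, add_mul, one_mul, div_mul_cancel₀ _ hb.ne']
    ring
  have h3 : 0 ≤ t ^ 3 * a := by positivity
  have h4 : t ^ 2 * b = t * (b + |c| + |d|) := by
    rw [← h2]
    ring
  have h5 : -(t * |c|) ≤ t * c := by
    have := neg_abs_le c
    nlinarith
  have h6 : -(t * |d|) ≤ d := by
    have h7 := neg_abs_le d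
    have h8 : |d| ≤ t * |d| := le_mul_of_one_le_left (abs_nonneg _) ht1
    linarith
  have h7 : 0 < t * b := by positivity
  nlinarith

end sym

theorem sq_dir [CharZero k] [IsAlgClosed k] [T0Space X.P] (h : Hyp X) (hr : RR T l c) (hν : NumR ν)
    (hT : ∀ U V W, TR (cR ν U) (cR ν V) (cR ν W) = T U V W) (hp : p ∈ closure (CC ν)) {R : (Fin r → ℝ) →ₗ[ℝ] ℝ}
    (hR : ∀ D, 0 < h0 D 1 → 0 ≤ R (cR ν D)) (hRp : R p = 0) {v : Fin r → ℝ} (hv : 0 < TR p p v) : 0 ≤ R v := by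
  have s12 := tr_s12 hν hr.tri hT
  have s23 := tr_s23 hν hr.tri hT
  by_contra hcon
  push Not at hcon
  -- an integral `v`
  obtain ⟨V, hV1, hV2⟩ : ∃ V : Cart X, 0 < TR p p (cR ν V) ∧ R (cR ν V) < 0 := by
    have ho : IsOpen {u : Fin r → ℝ | 0 < TR p p u ∧ R u < 0} :=
      (isOpen_lt continuous_const (LinearMap.continuous_of_finiteDimensional (TR p p))).inter
        (isOpen_lt (LinearMap.continuous_of_finiteDimensional R) continuous_const)
    obtain ⟨ρ, hρ, hb⟩ := Metric.isOpen_iff.1 ho v ⟨hv, hcon⟩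
    obtain ⟨N, d, hN, hNρ, hd⟩ := exists_near v (show 0 < ρ / 2 by positivity)
    obtain ⟨V, hV⟩ := ci_surj hν d
    have hN' : (0 : ℝ) < N := by exact_mod_cast hN
    have h1 : (N : ℝ)⁻¹ • rv d ∈ Metric.ball v ρ := by
      rw [Metric.mem_ball, dist_eq_norm]
      have e1 : (N : ℝ)⁻¹ • rv d - v = (N : ℝ)⁻¹ • (rv d - (N : ℝ) • v) := by
        rw [smul_sub, smul_smul, inv_mul_cancel₀ hN'.ne', one_smul]
      rw [e1, norm_smul, norm_inv, Real.norm_eq_abs, abs_of_pos hN']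
      have e2 : (N : ℝ)⁻¹ * ‖rv d - (N : ℝ) • v‖ ≤ (N : ℝ)⁻¹ * 1 :=
        mul_le_mul_of_nonneg_left hd (by positivity)
      have e3 : (N : ℝ)⁻¹ * 1 ≤ ρ / 2 := by
        rw [mul_one, inv_le_iff_one_le_mul₀ hN']
        linarith
      linarith
    obtain ⟨h2, h3⟩ := hb h1
    rw [map_smul, smul_eq_mul] at h2 h3
    have h4 : 0 < (N : ℝ)⁻¹ := by positivity
    refine ⟨V, ?_, ?_⟩
    · show 0 < TR p p (rv (ci ν V))
      rw [hV]
      exact (mul_pos_iff_of_pos_left h4).1 h2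
    · show R (rv (ci ν V)) < 0
      rw [hV]
      by_contra h5
      push Not at h5
      exact absurd h3 (not_lt.2 (mul_nonneg h4.le h5))
  -- `V = A₁ - m H`
  obtain ⟨A, hA⟩ := h.amp
  obtain ⟨m₀, hm₀, hB⟩ := Pool.Agent.H20.TK.bpf_exists h.var A hA
  obtain ⟨H, hH⟩ : ∃ H, H = A ^ m₀ := ⟨_, rfl⟩
  rw [← hH] at hB
  have hHA : Ample H := by rw [hH]; exact ample_pow A m₀ hm₀ hA
  obtain ⟨m, hm, hA1⟩ := ample_add h.var H V hHA
  obtain ⟨a₁, ha₁⟩ : ∃ a₁, a₁ = cR ν (H ^ m * V) := ⟨_, rfl⟩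
  obtain ⟨e, he⟩ : ∃ e, e = cR ν H := ⟨_, rfl⟩
  have hm0 : (0 : ℝ) < m := by exact_mod_cast hm
  have hVa : cR ν V = a₁ - (m : ℝ) • e := by
    rw [ha₁, he]
    show rv (ci ν V) = rv (ci ν (H ^ m * V)) - (m : ℝ) • rv (ci ν H)
    rw [ci_mul, ci_pow, rv_add, rv_smul, Int.cast_natCast]
    abel
  have hRe : 0 ≤ R e := by
    rw [he]
    exact hR H (Pool.Agent.H20.TQ.bpf_pos h hB)
  have hp3 : 0 ≤ TR p p p := by
    refine Pool.Agent.H39.TZ.cube_nn h hr hT ?_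
    rw [cl_eq h.var hν]
    exact hp
  rw [hVa] at hV1 hV2
  rw [map_sub, map_smul, smul_eq_mul] at hV1 hV2
  -- the cubic polynomial
  obtain ⟨t, ht1, htp⟩ := cub_ev (a := TR p p p) (b := 3 * (TR p p a₁ - m * TR p p e))
    (c := 3 * TR p a₁ a₁ - 6 * m * TR p a₁ e) (d := TR a₁ a₁ a₁ - 3 * m * TR a₁ a₁ e) hp3 (by linarith)
  have ht0 : 0 < t := by linarith
  obtain ⟨q, hq⟩ : ∃ q, q = t • p + a₁ := ⟨_, rfl⟩
  have hqf : 0 < TR q q q - 3 * m * TR q q e := by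
    have e1 : TR q q q - 3 * m * TR q q e = t ^ 3 * TR p p p + t ^ 2 * (3 * (TR p p a₁ - m * TR p p e)) +
        t * (3 * TR p a₁ a₁ - 6 * m * TR p a₁ e) + (TR a₁ a₁ a₁ - 3 * m * TR a₁ a₁ e) := by
      rw [hq]
      simp only [map_add, map_smul, LinearMap.add_apply, LinearMap.smul_apply, smul_eq_mul]
      rw [s23 p a₁ p, s12 a₁ p p, s23 p a₁ p, s12 a₁ p a₁, s23 a₁ a₁ p, s12 a₁ p a₁, s12 a₁ p e]
      ring
    rw [e1]
    exact htp
  have hqc : q ∈ CC ν := by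
    have h1 : t⁻¹ • a₁ + p ∈ CC ν := (Pool.Agent.H39.TZ.oc_cc h.var hν).add_cl
      (cc_smul (by positivity) (by rw [ha₁]; exact cc_amp h.var hν hA1)) hp
    have h2 := cc_smul ht0 h1
    rw [smul_add, smul_smul, mul_inv_cancel₀ ht0.ne', one_smul, add_comm] at h2
    rwa [hq]
  have ho : IsOpen {u : Fin r → ℝ | 0 < TR u u u - 3 * (m : ℝ) * TR u u e} :=
    isOpen_lt continuous_const (tri_cont TR e m)
  obtain ⟨ρ, hρ, hb⟩ := Metric.isOpen_iff.1 (ho.inter (cc_open (ν := ν))) q ⟨hqf, hqc⟩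
  obtain ⟨C, hC0, hC⟩ := lin_bd R
  have hκ : 0 < m * R e - R a₁ := by linarith
  obtain ⟨σ, hσ⟩ : ∃ σ, σ = min (ρ / 2) ((m * R e - R a₁) / (C + 1)) := ⟨_, rfl⟩
  have hσ0 : 0 < σ := by rw [hσ]; exact lt_min (by positivity) (by positivity)
  obtain ⟨N, d, hN, hNσ, hd⟩ := exists_near q hσ0
  obtain ⟨W, hW⟩ := ci_surj hν d
  have hN' : (0 : ℝ) < N := by exact_mod_cast hN
  obtain ⟨w, hw⟩ : ∃ w : Fin r → ℝ, w = (N : ℝ)⁻¹ • cR ν W := ⟨_, rfl⟩
  have hWw : cR ν W = (N : ℝ) • w := by rw [hw, smul_smul, mul_inv_cancel₀ hN'.ne', one_smul]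
  have hwq : ‖w - q‖ ≤ σ := by
    have e1 : w - q = (N : ℝ)⁻¹ • (rv d - (N : ℝ) • q) := by
      rw [smul_sub, smul_smul, inv_mul_cancel₀ hN'.ne', one_smul, hw]
      show (N : ℝ)⁻¹ • rv (ci ν W) - q = _
      rw [hW]
    rw [e1, norm_smul, norm_inv, Real.norm_eq_abs, abs_of_pos hN']
    have e2 : (N : ℝ)⁻¹ * ‖rv d - (N : ℝ) • q‖ ≤ (N : ℝ)⁻¹ * 1 :=
      mul_le_mul_of_nonneg_left hd (by positivity)
    refine e2.trans ?_
    rw [mul_one, inv_le_iff_one_le_mul₀ hN']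
    linarith
  have hwb : w ∈ Metric.ball q ρ := by
    rw [Metric.mem_ball, dist_eq_norm]
    have h1 : σ ≤ ρ / 2 := by rw [hσ]; exact min_le_left _ _
    linarith
  obtain ⟨hw1, hw2⟩ := hb hwb
  have hWA : Ample W := by
    refine cc_ample (ν := ν) ?_
    show cR ν W ∈ CC ν
    rw [hWw]
    exact cc_smul hN' hw2
  have hW3 : 3 * (N * m) * T W W H < T W W W := by
    rw [← hT W W W, ← hT W W H, hWw, ← he]
    simp only [map_smul, LinearMap.smul_apply, smul_eq_mul]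
    have e2 : 0 < (N : ℝ) ^ 3 * (TR w w w - 3 * m * TR w w e) := by
      have e3 : 0 < TR w w w - 3 * m * TR w w e := hw1
      positivity
    nlinarith
  obtain ⟨n, j, hn, hj, hpos⟩ := siv h hr hWA hB (show (0 : ℝ) < N * m by positivity) hW3
  have h1 := hR _ hpos
  have h2 : cR ν (W ^ n * (H ^ j)⁻¹) = (n : ℝ) • cR ν W - (j : ℝ) • e := by
    rw [he]
    show rv (ci ν (W ^ n * (H ^ j)⁻¹)) = (n : ℝ) • rv (ci ν W) - (j : ℝ) • rv (ci ν H)
    rw [ci_mul, ci_inv, ci_pow, ci_pow, rv_add, rv_neg, rv_smul, rv_smul, sub_eq_add_neg,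
      Int.cast_natCast, Int.cast_natCast]
  have hn0 : (0 : ℝ) < n := by exact_mod_cast hn
  rw [h2, map_sub, map_smul, map_smul, smul_eq_mul, smul_eq_mul] at h1
  have h3 : (n : ℝ) * (N * m) * R e ≤ j * R e := mul_le_mul_of_nonneg_right hj.le hRe
  have h4 : (n : ℝ) * (N * m * R e) ≤ n * R (cR ν W) := by linarith
  have h5 : (N : ℝ) * m * R e ≤ R (cR ν W) := le_of_mul_le_mul_left h4 hn0
  have h6 : R (cR ν W) = N * R q + R (rv d - (N : ℝ) • q) := by
    rw [map_sub, map_smul, smul_eq_mul]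
    show R (rv (ci ν W)) = _
    rw [hW]
    ring
  have h7 : R q = R a₁ := by
    rw [hq, map_add, map_smul, hRp, smul_zero, zero_add]
  have h8 := (abs_le.1 (hC _ hd)).2
  rw [h6, h7] at h5
  have h9 : C < N * (m * R e - R a₁) := by
    have h10 : σ ≤ (m * R e - R a₁) / (C + 1) := by rw [hσ]; exact min_le_right _ _
    rw [le_div_iff₀ (by positivity)] at h10
    have h11 : (N : ℝ) * (σ * (C + 1)) ≤ N * (m * R e - R a₁) := mul_le_mul_of_nonneg_left h10 hN'.le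
    have h12 : 1 * (C + 1) ≤ N * σ * (C + 1) := mul_le_mul_of_nonneg_right hNσ (by linarith)
    linarith
  linarith

/-- `T(p,p,.)` is a multiple of `R` -/
theorem sq_eq [CharZero k] [IsAlgClosed k] [T0Space X.P] (h : Hyp X) (hr : RR T l c) (hν : NumR ν)
    (hT : ∀ U V W, TR (cR ν U) (cR ν V) (cR ν W) = T U V W) (hp : p ∈ closure (CC ν)) {R : (Fin r → ℝ) →ₗ[ℝ] ℝ}
    (hR : ∀ D, 0 < h0 D 1 → 0 ≤ R (cR ν D)) (hRp : R p = 0) {a : Fin r → ℝ} (ha : 0 < R a) :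
    ∃ τ : ℝ, 0 ≤ τ ∧ ∀ v, TR p p v = τ * R v := by
  have key : ∀ v, 0 < TR p p v → 0 ≤ R v := fun v hv => sq_dir h hr hν hT hp hR hRp hv
  have h0' : ∀ v, R v = 0 → TR p p v ≤ 0 := by
    intro v hv
    by_contra hcon
    push Not at hcon
    obtain ⟨ε, hε⟩ : ∃ ε : ℝ, ε = TR p p v / (2 * (|TR p p a| + 1)) := ⟨_, rfl⟩
    have hε0 : 0 < ε := by rw [hε]; positivity
    have h1 : ε * (|TR p p a| + 1) = TR p p v / 2 := by
      rw [hε]
      have : (|TR p p a| + 1) ≠ 0 := by positivity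
      field_simp
    have h2 := key (v - ε • a) (by
      rw [map_sub, map_smul, smul_eq_mul]
      have h3 := le_abs_self (TR p p a)
      nlinarith)
    rw [map_sub, map_smul, smul_eq_mul, hv] at h2
    have := mul_pos hε0 ha
    linarith
  have h1 : ∀ v, R v = 0 → TR p p v = 0 := by
    intro v hv
    refine le_antisymm (h0' v hv) ?_
    have h2 := h0' (-v) (by rw [map_neg, hv, neg_zero])
    rw [map_neg] at h2
    linarith
  refine ⟨TR p p a / R a, ?_, fun v => ?_⟩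
  · refine div_nonneg ?_ ha.le
    by_contra hcon
    push Not at hcon
    have h2 := key (-a) (by rw [map_neg]; linarith)
    rw [map_neg] at h2
    linarith
  · have h2 := h1 (v - (R v / R a) • a) (by
      rw [map_sub, map_smul, smul_eq_mul, div_mul_cancel₀ _ ha.ne', sub_self])
    rw [map_sub, map_smul, smul_eq_mul] at h2
    have h3 : TR p p v = R v / R a * TR p p a := by linarith
    rw [h3]
    ring

end Pool.Agent.H32.TN
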